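import Mathlib

/-!
MP_ba437d_nt: the sieve by arbitrary residue classes modulo small primes (truncated
inclusion-exclusion), uniformly in the intersections of classes of larger primes.
-/

set_option autoImplicit false

namespace Pool.Agent.Lib.MP_ba437d_nt

open Finset

/-- the integers of `[1, N]` in the classes `a p` modulo `p` for all `p ∈ D` -/
def cl (N : ℕ) (a : ℕ → ℤ) (D : Finset ℕ) : Finset ℕ :=
  (Icc 1 N).filter (fun n => ∀ p ∈ D, (n : ℤ) ≡ a p [ZMOD (p : ℤ)])

/-- product of `1 / p` -/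
noncomputable def W (D : Finset ℕ) : ℝ := ∏ p ∈ D, (1 / (p : ℝ))

/-- elementary symmetric sums of `1 / p` -/
noncomputable def E (j : ℕ) (P : Finset ℕ) : ℝ := ∑ D ∈ powersetCard j P, W D

theorem crt (a : ℕ → ℤ) (D : Finset ℕ) (hD : ∀ p ∈ D, p.Prime) :
    ∃ b : ℤ, ∀ n : ℤ, (∀ p ∈ D, n ≡ a p [ZMOD (p : ℤ)]) ↔ n ≡ b [ZMOD ((∏ p ∈ D, p : ℕ) : ℤ)] := by
  classical
  induction D using Finset.induction with
  | empty => exact ⟨0, fun n => by simp [Int.modEq_one]⟩
  | insert q D hq ih =>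
    obtain ⟨b, hb⟩ := ih (fun p hp => hD p (mem_insert_of_mem hp))
    have hco : Nat.Coprime q (∏ p ∈ D, p) := by
      apply Nat.Coprime.prod_right
      intro p hp
      exact (Nat.coprime_primes (hD q (mem_insert_self _ _)) (hD p (mem_insert_of_mem hp))).2
        (fun h => hq (h ▸ hp))
    have hco' : IsCoprime (q : ℤ) ((∏ p ∈ D, p : ℕ) : ℤ) := Nat.isCoprime_iff_coprime.2 hco
    obtain ⟨u, v, huv⟩ := hco'
    have e1 : (a q) * (v * ((∏ p ∈ D, p : ℕ) : ℤ)) + b * (u * q) ≡ a q [ZMOD (q : ℤ)] := by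
      rw [Int.modEq_iff_dvd]
      refine ⟨(a q - b) * u, ?_⟩
      linear_combination (-(a q)) * huv
    have e2 : (a q) * (v * ((∏ p ∈ D, p : ℕ) : ℤ)) + b * (u * q) ≡ b
        [ZMOD ((∏ p ∈ D, p : ℕ) : ℤ)] := by
      rw [Int.modEq_iff_dvd]
      refine ⟨(b - a q) * v, ?_⟩
      linear_combination (-b) * huv
    refine ⟨(a q) * (v * ((∏ p ∈ D, p : ℕ) : ℤ)) + b * (u * q), fun n => ?_⟩
    rw [prod_insert hq, Nat.cast_mul, forall_mem_insert, hb n,
      ← Int.modEq_and_modEq_iff_modEq_mul (by rw [Int.natAbs_natCast, Int.natAbs_natCast]; exact hco)]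
    constructor
    · rintro ⟨h1, h2⟩
      exact ⟨h1.trans e1.symm, h2.trans e2.symm⟩
    · rintro ⟨h1, h2⟩
      exact ⟨h1.trans e1, h2.trans e2⟩

theorem W_eq (D : Finset ℕ) : W D = 1 / ((∏ p ∈ D, p : ℕ) : ℝ) := by
  unfold W
  rw [Nat.cast_prod, prod_div_distrib, prod_const_one]

theorem W_pos (D : Finset ℕ) (hD : ∀ p ∈ D, p.Prime) : 0 < W D :=
  prod_pos fun p hp => by have := (hD p hp).pos; positivity

theorem W_nonneg (D : Finset ℕ) : 0 ≤ W D := prod_nonneg fun p _ => by positivity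

theorem fl (q : ℚ) : ((⌊q⌋ : ℤ) : ℝ) ≤ (q : ℝ) ∧ (q : ℝ) < ((⌊q⌋ : ℤ) : ℝ) + 1 :=
  ⟨by exact_mod_cast Int.floor_le q, by exact_mod_cast Int.lt_floor_add_one q⟩

theorem cl_card (N : ℕ) (a : ℕ → ℤ) (D : Finset ℕ) (hD : ∀ p ∈ D, p.Prime) :
    |((cl N a D).card : ℝ) - N * W D| ≤ 1 := by
  classical
  obtain ⟨b, hb⟩ := crt a D hD
  set m := ∏ p ∈ D, p with hm
  have hm0 : 0 < m := prod_pos fun p hp => (hD p hp).pos
  have e1 : (cl N a D).card = ((Ioc (0 : ℤ) N).filter (fun n => n ≡ b [ZMOD (m : ℤ)])).card := by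
    apply card_bij (fun (n : ℕ) _ => (n : ℤ))
    · intro n hn
      simp only [cl, mem_filter, mem_Icc] at hn
      simp only [mem_filter, mem_Ioc]
      exact ⟨⟨by omega, by exact_mod_cast hn.1.2⟩, (hb n).1 hn.2⟩
    · intro n _ n' _ h
      exact_mod_cast h
    · intro n hn
      simp only [mem_filter, mem_Ioc] at hn
      refine ⟨n.toNat, ?_, Int.toNat_of_nonneg hn.1.1.le⟩
      simp only [cl, mem_filter, mem_Icc]
      refine ⟨⟨by omega, by omega⟩, ?_⟩
      rw [Int.toNat_of_nonneg hn.1.1.le]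
      exact (hb n).2 hn.2
  rw [e1, W_eq, ← hm]
  have h2 := Int.Ioc_filter_modEq_card (0 : ℤ) (N : ℤ) (r := (m : ℤ)) (by exact_mod_cast hm0) b
  have h3 : ((((Ioc (0 : ℤ) N).filter (fun n => n ≡ b [ZMOD (m : ℤ)])).card : ℤ) : ℝ) =
      ((max (⌊(((N : ℤ) : ℚ) - b) / ((m : ℤ) : ℚ)⌋ - ⌊(((0 : ℤ) : ℚ) - b) / ((m : ℤ) : ℚ)⌋) 0 : ℤ) : ℝ) := by
    rw [h2]
  rw [Int.cast_natCast] at h3
  rw [h3]
  have hmq : (0 : ℚ) < (m : ℚ) := by exact_mod_cast hm0
  have hmr : (0 : ℝ) < (m : ℝ) := by exact_mod_cast hm0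
  clear_value m
  have hA := fl ((((N : ℤ) : ℚ) - b) / ((m : ℤ) : ℚ))
  have hB := fl ((((0 : ℤ) : ℚ) - b) / ((m : ℤ) : ℚ))
  have hAB : ⌊(((0 : ℤ) : ℚ) - b) / ((m : ℤ) : ℚ)⌋ ≤ ⌊(((N : ℤ) : ℚ) - b) / ((m : ℤ) : ℚ)⌋ := by
    apply Int.floor_le_floor
    apply div_le_div_of_nonneg_right _ (by exact_mod_cast hm0.le)
    push_cast
    have : (0 : ℚ) ≤ N := by positivity
    linarith
  generalize ⌊(((N : ℤ) : ℚ) - b) / ((m : ℤ) : ℚ)⌋ = A at *
  generalize ⌊(((0 : ℤ) : ℚ) - b) / ((m : ℤ) : ℚ)⌋ = B at *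
  obtain ⟨hA1, hA2⟩ := hA
  obtain ⟨hB1, hB2⟩ := hB
  push_cast at hA1 hA2 hB1 hB2
  rw [max_eq_left (by omega)]
  push_cast
  have e : (N : ℝ) * (1 / (m : ℝ)) = ((N : ℝ) - b) / m - (0 - (b : ℝ)) / m := by
    field_simp; ring
  rw [e, abs_le]
  constructor <;> linarith

theorem E_nonneg (j : ℕ) (P : Finset ℕ) : 0 ≤ E j P := sum_nonneg fun D _ => W_nonneg D

theorem E_zero (P : Finset ℕ) : E 0 P = 1 := by simp [E, W]

theorem E_one (P : Finset ℕ) : E 1 P = ∑ p ∈ P, 1 / (p : ℝ) := by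
  unfold E
  rw [powersetCard_one, sum_map]
  simp [W]

theorem E_succ_insert (j : ℕ) (P : Finset ℕ) (q : ℕ) (hq : q ∉ P) :
    E (j + 1) (insert q P) = E (j + 1) P + 1 / (q : ℝ) * E j P := by
  unfold E
  rw [powersetCard_succ_insert hq, sum_union, sum_image, mul_sum]
  · congr 1
    apply sum_congr rfl
    intro D hD
    rw [mem_powersetCard] at hD
    unfold W
    rw [prod_insert (fun h => hq (hD.1 h))]
  · intro D hD D' hD' h
    simp only [mem_coe, mem_powersetCard] at hD hD'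
    rw [← erase_insert (fun h => hq (hD.1 h)), ← erase_insert (fun h => hq (hD'.1 h)), h]
  · rw [disjoint_left]
    intro D hD hD'
    rw [mem_image] at hD'
    obtain ⟨D', _, rfl⟩ := hD'
    rw [mem_powersetCard] at hD
    exact hq (hD.1 (mem_insert_self _ _))

theorem E_le (j : ℕ) (P : Finset ℕ) :
    E j P ≤ (∑ p ∈ P, 1 / (p : ℝ)) ^ j / (j.factorial : ℝ) := by
  classical
  induction P using Finset.induction generalizing j with
  | empty =>
    cases j with
    | zero => simp [E, W]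
    | succ j =>
      unfold E
      rw [powersetCard_eq_empty.2 (by simp), sum_empty]
      positivity
  | insert q P hq ih =>
    cases j with
    | zero => simp [E, W]
    | succ j =>
      rw [E_succ_insert j P q hq, sum_insert hq]
      set s := ∑ p ∈ P, 1 / (p : ℝ) with hs
      have hs0 : 0 ≤ s := sum_nonneg fun p _ => by positivity
      set t := 1 / (q : ℝ) with ht
      have ht0 : 0 ≤ t := by positivity
      have h1 := ih (j + 1)
      have h2 := mul_le_mul_of_nonneg_left (ih j) ht0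
      have h3 : s ^ (j + 1) + ((j : ℝ) + 1) * (t * s ^ j) ≤ (t + s) ^ (j + 1) := by
        rcases hs0.eq_or_lt with h | h
        · rw [← h]
          rcases Nat.eq_zero_or_pos j with rfl | hj
          · simp
          · rw [zero_pow (by omega), zero_pow (by omega)]
            simp only [mul_zero, add_zero]
            positivity
        · have hb := one_add_mul_le_pow (show (-2 : ℝ) ≤ t / s by
            have : 0 ≤ t / s := by positivity
            linarith) (j + 1)
          have e : (t + s) ^ (j + 1) = s ^ (j + 1) * (1 + t / s) ^ (j + 1) := by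
            rw [← mul_pow]; congr 1; field_simp; ring
          rw [e]
          have := mul_le_mul_of_nonneg_left hb (pow_nonneg hs0 (j + 1))
          refine le_trans (le_of_eq ?_) this
          push_cast
          rw [pow_succ]
          field_simp
      have hf : ((j + 1).factorial : ℝ) = ((j : ℝ) + 1) * (j.factorial : ℝ) := by
        rw [Nat.factorial_succ]; push_cast; ring
      have hj0 : (0 : ℝ) < (j.factorial : ℝ) := by exact_mod_cast j.factorial_pos
      calc E (j + 1) P + t * E j P ≤ s ^ (j + 1) / ((j + 1).factorial : ℝ) +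
            t * (s ^ j / (j.factorial : ℝ)) := add_le_add h1 h2
        _ = (s ^ (j + 1) + ((j : ℝ) + 1) * (t * s ^ j)) / ((j + 1).factorial : ℝ) := by
          rw [hf]; field_simp
        _ ≤ _ := div_le_div_of_nonneg_right h3 (by positivity)

theorem E_two (P : Finset ℕ) :
    2 * E 2 P + ∑ p ∈ P, (1 / (p : ℝ)) ^ 2 = (∑ p ∈ P, 1 / (p : ℝ)) ^ 2 := by
  classical
  induction P using Finset.induction with
  | empty =>
    unfold E
    rw [powersetCard_eq_empty.2 (by simp), sum_empty]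
    simp
  | insert q P hq ih =>
    rw [E_succ_insert 1 P q hq, sum_insert hq, sum_insert hq, E_one]
    nlinarith [ih]

theorem E_sum (P : Finset ℕ) :
    ∑ j ∈ range (P.card + 1), (-1 : ℝ) ^ j * E j P = ∏ p ∈ P, (1 - 1 / (p : ℝ)) := by
  classical
  have h := prod_add (fun p : ℕ => -(1 / (p : ℝ))) (fun _ => (1 : ℝ)) P
  have e : ∏ p ∈ P, (1 - 1 / (p : ℝ)) = ∏ p ∈ P, (-(1 / (p : ℝ)) + 1) :=
    prod_congr rfl fun p _ => by ring
  rw [e, h, sum_powerset]
  apply sum_congr rfl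
  intro j _
  unfold E
  rw [mul_sum]
  apply sum_congr rfl
  intro D hD
  rw [mem_powersetCard] at hD
  rw [prod_const_one, mul_one, prod_neg, hD.2]
  rfl

/-- tail of the exponential series -/
noncomputable def tau (K : ℝ) (r : ℕ) : ℝ := Real.exp K - ∑ j ∈ range (r + 1), K ^ j / (j.factorial : ℝ)

theorem tau_tendsto (K : ℝ) : Filter.Tendsto (tau K) Filter.atTop (nhds 0) := by
  have h := (NormedSpace.expSeries_div_hasSum_exp (𝔸 := ℝ) K).tendsto_sum_nat
  rw [← Real.exp_eq_exp_ℝ] at h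
  have h2 := h.comp (Filter.tendsto_add_atTop_nat 1)
  have h3 := h2.const_sub (Real.exp K)
  rw [sub_self] at h3
  exact h3

theorem tau_bound {K : ℝ} (hK : 0 ≤ K) (r : ℕ) (S : Finset ℕ) (hS : ∀ j ∈ S, r + 1 ≤ j) :
    ∑ j ∈ S, K ^ j / (j.factorial : ℝ) ≤ tau K r := by
  have h := (NormedSpace.expSeries_div_hasSum_exp (𝔸 := ℝ) K)
  rw [← Real.exp_eq_exp_ℝ] at h
  have hd : Disjoint (range (r + 1)) S := by
    rw [disjoint_left]
    intro j hj hj'
    rw [mem_range] at hj
    have := hS j hj'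
    omega
  have h2 := sum_le_hasSum (range (r + 1) ∪ S) (fun j _ => by positivity) h
  rw [sum_union hd] at h2
  unfold tau
  linarith

theorem tau_nonneg {K : ℝ} (hK : 0 ≤ K) (r : ℕ) : 0 ≤ tau K r := by
  have := tau_bound hK r ∅ (by simp)
  simpa using this

theorem trunc (P : Finset ℕ) {K : ℝ} (hK : ∑ p ∈ P, 1 / (p : ℝ) ≤ K) (r : ℕ) :
    |∑ j ∈ range (r + 1), (-1 : ℝ) ^ j * E j P - ∏ p ∈ P, (1 - 1 / (p : ℝ))| ≤ tau K r := by
  have hK0 : 0 ≤ K := le_trans (sum_nonneg fun p _ => by positivity) hK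
  have hEle : ∀ j, E j P ≤ K ^ j / (j.factorial : ℝ) := fun j =>
    (E_le j P).trans (div_le_div_of_nonneg_right
      (pow_le_pow_left₀ (sum_nonneg fun p _ => by positivity) hK j) (by positivity))
  rw [← E_sum P]
  rcases le_total (r + 1) (P.card + 1) with h | h
  · have e : range (P.card + 1) = range (r + 1) ∪ Ico (r + 1) (P.card + 1) := by
      ext j; simp only [mem_range, mem_union, mem_Ico]; omega
    have hd : Disjoint (range (r + 1)) (Ico (r + 1) (P.card + 1)) := by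
      rw [disjoint_left]; intro j hj hj'
      rw [mem_range] at hj; rw [mem_Ico] at hj'; omega
    rw [e, sum_union hd, sub_add_cancel_left, abs_neg]
    refine (abs_sum_le_sum_abs _ _).trans ?_
    refine le_trans (sum_le_sum fun j _ => ?_) (tau_bound hK0 r (Ico (r + 1) (P.card + 1))
      (fun j hj => (mem_Ico.1 hj).1))
    rw [abs_mul, abs_pow, abs_neg, abs_one, one_pow, one_mul, abs_of_nonneg (E_nonneg j P)]
    exact hEle j
  · have e : ∑ j ∈ range (r + 1), (-1 : ℝ) ^ j * E j P =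
        ∑ j ∈ range (P.card + 1), (-1 : ℝ) ^ j * E j P := by
      symm
      apply sum_subset
      · intro j hj; rw [mem_range] at *; omega
      · intro j _ hj
        rw [mem_range] at hj
        have : E j P = 0 := by
          unfold E
          rw [powersetCard_eq_empty.2 (by omega), sum_empty]
        rw [this, mul_zero]
    rw [e, sub_self, abs_zero]
    exact tau_nonneg hK0 r

end Pool.Agent.Lib.MP_ba437d_nt
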