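import Pool.Agent.Lib.MP_ba437d_nt.Main

/-!
MP_ba437d_nt: systems without the largest primes; systems with polynomially bounded shifts.
-/

set_option autoImplicit false

namespace Pool.Agent.Lib.MP_ba437d_nt

open Finset Filter Topology

/-- all primes at most `x ^ θ`, `θ < e / 3` -/
theorem theta (θ : ℝ) (hθ : θ < Real.exp 1 / 3) :
    ∃ κ : ℝ, 0 < κ ∧ ∀ K : ℝ, 0 ≤ K → ∃ ε c : ℝ, 0 < ε ∧ 0 < c ∧
      ∀ᶠ x : ℕ in atTop, ∀ (P : Finset ℕ) (a : ℕ → ℤ),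
      (∀ p ∈ P, p.Prime ∧ p ≤ x) → (∀ p ∈ P, (p : ℝ) ≤ (x : ℝ) ^ θ) →
      ∑ p ∈ P, 1 / (p : ℝ) ≤ K → ∑ p ∈ Lrg x ε P, 1 / (p : ℝ) ≤ 1 + κ →
      c * x ≤ ((unc x P a).card : ℝ) := by
  have he := Real.exp_one_gt_d9
  obtain ⟨θ', hθ'⟩ : ∃ θ', θ' = max θ (1 / 3) := ⟨_, rfl⟩
  have h1 : θ ≤ θ' := by rw [hθ']; exact le_max_left _ _
  have h2 : 1 / 3 ≤ θ' := by rw [hθ']; exact le_max_right _ _
  have h3 : θ' < Real.exp 1 / 3 := by
    rw [hθ']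
    exact max_lt hθ (by linarith)
  obtain ⟨g, hg⟩ : ∃ g, g = (1 - Real.log (3 * θ')) / 6 := ⟨_, rfl⟩
  have hl1 : Real.log (3 * θ') < 1 := by
    rw [Real.log_lt_iff_lt_exp (by linarith)]
    linarith
  have hl0 : 0 ≤ Real.log (3 * θ') := Real.log_nonneg (by linarith)
  have hg0 : 0 < g := by rw [hg]; linarith
  have hg1 : g ≤ 1 / 6 := by rw [hg]; linarith
  have hg2 : g ^ 2 ≤ g / 6 := by nlinarith
  have hg3 : 0 < g ^ 2 := by positivity
  refine ⟨g ^ 2 / 10, by positivity, fun K hK0 => ?_⟩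
  obtain ⟨ε, c, hε0, hε1, hc0, hcr⟩ := crit K (g ^ 2 / 10) hK0 (by positivity) (by linarith)
  refine ⟨ε, c, hε0, hc0, ?_⟩
  have hml := mass_le (1 / 3 - g ^ 2 / 10) θ' (by linarith) (by linarith) g hg0
  filter_upwards [hcr, hml, eventually_ge_atTop 1] with x h4 h5 hx1 P a hP hPθ hK hL
  have hx0 : (1 : ℝ) ≤ x := by exact_mod_cast hx1
  apply h4 P a hP hK
  rw [Lrg_split hx1 hε1] at hL
  have h6 := h5 (Lrg x (1 / 3 - g ^ 2 / 10) P) (fun p hp => (hP p (mem_Lrg.1 hp).1).1) (by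
    intro p hp
    rw [mem_Lrg] at hp
    exact ⟨hp.2, (hPθ p hp.1).trans (Real.rpow_le_rpow_of_exponent_le hx0 h1)⟩)
  have h7 : Real.log (θ' / (1 / 3 - g ^ 2 / 10)) ≤ 1 - 6 * g + g / 10 := by
    have e : θ' / (1 / 3 - g ^ 2 / 10) = 3 * θ' / (1 - 3 * (g ^ 2 / 10)) := by
      rw [div_eq_div_iff (by linarith) (by linarith)]
      ring
    rw [e, Real.log_div (by linarith) (by linarith)]
    have h8 := Real.one_sub_inv_le_log_of_pos (show 0 < 1 - 3 * (g ^ 2 / 10) by linarith)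
    have h9 : (1 - 3 * (g ^ 2 / 10))⁻¹ ≤ 1 + 6 * (g ^ 2 / 10) := by
      rw [inv_le_comm₀ (by linarith) (by linarith), ← one_div, div_le_iff₀ (by linarith)]
      nlinarith
    have h10 : Real.log (3 * θ') = 1 - 6 * g := by rw [hg]; ring
    linarith
  set m1 := ∑ p ∈ Mid x ε (1 / 3 - g ^ 2 / 10) P, 1 / (p : ℝ) with hm1
  set m2 := ∑ p ∈ Lrg x (1 / 3 - g ^ 2 / 10) P, 1 / (p : ℝ) with hm2
  have hm10 : 0 ≤ m1 := sum_nonneg fun p _ => by positivity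
  have hm20 : 0 ≤ m2 := sum_nonneg fun p _ => by positivity
  have e : m1 ^ 2 / 2 - m1 ^ 3 / 6 = m1 ^ 2 * (1 / 2 - m1 / 6) := by ring
  have hm11 : m1 ≤ 1.01 := by linarith
  have h12 : 0.33 ≤ 1 / 2 - m1 / 6 := by linarith
  have h13 : m1 ^ 2 * 0.33 ≤ m1 ^ 2 / 2 - m1 ^ 3 / 6 := by
    rw [e]
    gcongr
  have h14 : 0 ≤ m1 ^ 2 := by positivity
  rcases le_or_gt m1 g with h | h
  · linarith
  · have h15 : g ^ 2 ≤ m1 ^ 2 := pow_le_pow_left₀ hg0.le h.le 2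
    linarith

theorem card_dvd_le {x : ℕ} (hx : 2 ≤ x) (s B : ℝ) (hs : 0 < s) (M : Finset ℕ)
    (hM : ∀ p ∈ M, p.Prime) (hMs : ∀ p ∈ M, (x : ℝ) ^ s < p) (m : ℤ) (hm : m ≠ 0)
    (hd : ∀ p ∈ M, (p : ℤ) ∣ m) (hB : |(m : ℝ)| ≤ (x : ℝ) ^ B) : (M.card : ℝ) * s ≤ B := by
  have hx1 : (1 : ℝ) < x := by exact_mod_cast hx
  have hxp : (0 : ℝ) < x := by linarith
  have h1 : (∏ p ∈ M, (p : ℤ)) ∣ m := by
    apply Finset.prod_dvd_of_coprime
    · intro p hp q hq hpq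
      exact Nat.isCoprime_iff_coprime.2 ((Nat.coprime_primes (hM p hp) (hM q hq)).2 hpq)
    · exact hd
  have h2 : ∏ p ∈ M, (p : ℤ) ≤ |m| := by
    exact Int.le_of_dvd (abs_pos.2 hm) ((dvd_abs _ _).2 h1)
  have h3 : ∏ p ∈ M, (p : ℝ) ≤ |(m : ℝ)| := by
    have h : ((∏ p ∈ M, (p : ℤ) : ℤ) : ℝ) ≤ ((|m| : ℤ) : ℝ) := by exact_mod_cast h2
    rw [Int.cast_prod, Int.cast_abs] at h
    simpa using h
  have h4 : ((x : ℝ) ^ s) ^ M.card ≤ ∏ p ∈ M, (p : ℝ) := by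
    rw [← prod_const]
    exact Finset.prod_le_prod (fun p _ => by positivity) (fun p hp => (hMs p hp).le)
  have h5 : (x : ℝ) ^ (s * M.card) ≤ (x : ℝ) ^ B := by
    rw [Real.rpow_mul hxp.le, Real.rpow_natCast]
    exact h4.trans (h3.trans hB)
  have h6 := (Real.rpow_le_rpow_left_iff hx1).1 h5
  linarith

/-- the medium classes are represented by few integers of polynomial size -/
theorem shifts (A k : ℕ) :
    ∃ κ : ℝ, 0 < κ ∧ ∀ K : ℝ, 0 ≤ K → ∃ ε c : ℝ, 0 < ε ∧ 0 < c ∧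
      ∀ᶠ x : ℕ in atTop, ∀ (P : Finset ℕ) (a : ℕ → ℤ),
      (∀ p ∈ P, p.Prime ∧ p ≤ x) →
      ∑ p ∈ P, 1 / (p : ℝ) ≤ K → ∑ p ∈ Lrg x ε P, 1 / (p : ℝ) ≤ 1 + κ →
      ∀ B : Finset ℤ, B.card ≤ k → (∀ b ∈ B, |b| ≤ (x : ℤ) ^ A) →
      (∀ p ∈ Mid x (8 / 25) (12 / 25) P, ∃ b ∈ B, a p ≡ b [ZMOD (p : ℤ)]) →
      c * x ≤ ((unc x P a).card : ℝ) := by
  classical
  obtain ⟨κ, hκ0, hκ⟩ := bounded (4 * k * (A + 2) + 1) (by omega)
  refine ⟨κ, hκ0, fun K hK0 => ?_⟩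
  obtain ⟨ε, c, hε0, hc0, hb⟩ := hκ K hK0
  refine ⟨ε, c, hε0, hc0, ?_⟩
  have h40 : (0 : ℝ) < (4 : ℝ) ^ (-K) := by positivity
  filter_upwards [hb, eventually_ge_atTop 2,
    rpow_neg_small (1 / 25) (by norm_num) (κ * (4 : ℝ) ^ (-K) / (k + 1)) (by positivity)]
    with x hx hx2 hxe P a hP hK hL B hB hBA hPB
  have hx0 : (1 : ℝ) < x := by exact_mod_cast hx2
  have hxp : (0 : ℝ) < x := by linarith
  apply hx P a hP hK hL
  set M := Mid x (8 / 25) (12 / 25) P with hM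
  have hMp : ∀ p ∈ M, p.Prime := fun p hp => (hP p (mem_Mid.1 hp).1).1
  -- the number of hits outside `B`
  have hhit : ∀ n ∈ Icc 1 x, (n : ℤ) ∉ B → (hit M a n).card ≤ 4 * k * (A + 2) + 1 := by
    intro n hn hnB
    rw [mem_Icc] at hn
    choose! b hbB hb using hPB
    have h1 : hit M a n ⊆ B.biUnion (fun b => M.filter (fun p : ℕ => (p : ℤ) ∣ (n : ℤ) - b)) := by
      intro p hp
      unfold hit at hp
      rw [mem_filter] at hp
      rw [mem_biUnion]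
      refine ⟨b p, hbB p hp.1, ?_⟩
      rw [mem_filter]
      refine ⟨hp.1, ?_⟩
      exact (Int.modEq_iff_dvd.1 ((hp.2.trans (hb p hp.1)).symm))
    have h2 : ∀ b ∈ B, (M.filter (fun p : ℕ => (p : ℤ) ∣ (n : ℤ) - b)).card ≤ 4 * (A + 2) := by
      intro b hb
      have hne : (n : ℤ) - b ≠ 0 := by
        intro h
        apply hnB
        have : (n : ℤ) = b := by omega
        rw [this]; exact hb
      have h3 := card_dvd_le hx2 (8 / 25) ((A : ℝ) + 2) (by norm_num)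
        (M.filter (fun p : ℕ => (p : ℤ) ∣ (n : ℤ) - b)) (fun p hp => hMp p (mem_filter.1 hp).1)
        (fun p hp => (mem_Mid.1 (mem_filter.1 hp).1).2.1) ((n : ℤ) - b) hne
        (fun p hp => (mem_filter.1 hp).2) (by
          have i1 : (n : ℝ) ≤ x := by exact_mod_cast hn.2
          have i2 : |(b : ℝ)| ≤ (x : ℝ) ^ A := by exact_mod_cast hBA b hb
          have i3 : |(((n : ℤ) - b : ℤ) : ℝ)| ≤ (n : ℝ) + |(b : ℝ)| := by
            push_cast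
            have := abs_sub (n : ℝ) (b : ℝ)
            rwa [abs_of_nonneg (by positivity : (0 : ℝ) ≤ n)] at this
          have i4 : (x : ℝ) ^ ((A : ℝ) + 2) = (x : ℝ) ^ (A + 2 : ℕ) := by
            rw [← Real.rpow_natCast]; push_cast; rfl
          rw [i4]
          have i5 : (1 : ℝ) ≤ (x : ℝ) ^ A := one_le_pow₀ hx0.le
          have i6 : (2 : ℝ) ≤ x := by exact_mod_cast hx2
          calc |(((n : ℤ) - b : ℤ) : ℝ)| ≤ (n : ℝ) + |(b : ℝ)| := i3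
            _ ≤ x + (x : ℝ) ^ A := add_le_add i1 i2
            _ ≤ x * (x : ℝ) ^ A + x * (x : ℝ) ^ A := by nlinarith
            _ = 2 * (x * (x : ℝ) ^ A) := by ring
            _ ≤ x * (x * (x : ℝ) ^ A) := by gcongr
            _ = (x : ℝ) ^ (A + 2 : ℕ) := by ring)
      have h4 : (((M.filter (fun p : ℕ => (p : ℤ) ∣ (n : ℤ) - b)).card : ℕ) : ℝ) ≤
          ((4 * (A + 2) : ℕ) : ℝ) := by
        push_cast
        linarith
      exact_mod_cast h4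
    calc (hit M a n).card ≤ (B.biUnion (fun b => M.filter (fun p : ℕ => (p : ℤ) ∣ (n : ℤ) - b))).card :=
          card_le_card h1
      _ ≤ B.card * (4 * (A + 2)) := card_biUnion_le_card_mul _ _ _ h2
      _ ≤ k * (4 * (A + 2)) := Nat.mul_le_mul_right _ hB
      _ = 4 * k * (A + 2) := by ring
      _ ≤ _ := Nat.le_succ _
  have hMcard : (M.card : ℝ) ≤ (x : ℝ) ^ (12 / 25 : ℝ) := by
    have h1 : M.card ≤ ⌊(x : ℝ) ^ (12 / 25 : ℝ)⌋₊ := by
      rw [show ⌊(x : ℝ) ^ (12 / 25 : ℝ)⌋₊ = (Icc 1 ⌊(x : ℝ) ^ (12 / 25 : ℝ)⌋₊).card by simp]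
      apply card_le_card
      intro p hp
      rw [mem_Icc]
      exact ⟨(hMp p hp).one_le, Nat.le_floor (mem_Mid.1 hp).2.2⟩
    exact le_trans (by exact_mod_cast h1) (Nat.floor_le (by positivity))
  have hsub : ((Icc 1 x).filter (fun n => 4 * k * (A + 2) + 1 < (hit M a n).card)).card ≤ k := by
    refine le_trans ?_ hB
    apply card_le_card_of_injOn (fun n : ℕ => (n : ℤ))
    · intro n hn
      have hn' := mem_filter.1 (mem_coe.1 hn)
      rw [mem_coe]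
      by_contra hcon
      have := hhit n hn'.1 hcon
      have := hn'.2
      omega
    · intro n _ n' _ h
      exact_mod_cast (show (n : ℤ) = n' from h)
  have hone : ∀ n ∈ (Icc 1 x).filter (fun n => 4 * k * (A + 2) + 1 < (hit M a n).card),
      ((hit M a n).card : ℝ) ^ 2 ≤ x * (x : ℝ) ^ (-(1 / 25 : ℝ)) := by
    intro n _
    have h1 : ((hit M a n).card : ℝ) ≤ (x : ℝ) ^ (12 / 25 : ℝ) := by
      refine le_trans ?_ hMcard
      exact_mod_cast card_le_card (filter_subset _ _)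
    calc ((hit M a n).card : ℝ) ^ 2 ≤ ((x : ℝ) ^ (12 / 25 : ℝ)) ^ 2 :=
          pow_le_pow_left₀ (by positivity) h1 2
      _ = x * (x : ℝ) ^ (-(1 / 25 : ℝ)) := by
        rw [← Real.rpow_natCast, ← Real.rpow_mul hxp.le]
        nth_rewrite 2 [← Real.rpow_one (x : ℝ)]
        rw [← Real.rpow_add hxp]
        norm_num
  refine (sum_le_sum hone).trans ?_
  rw [sum_const, nsmul_eq_mul]
  have hk : (((Icc 1 x).filter (fun n => 4 * k * (A + 2) + 1 < (hit M a n).card)).card : ℝ) ≤ k := by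
    exact_mod_cast hsub
  calc (((Icc 1 x).filter (fun n => 4 * k * (A + 2) + 1 < (hit M a n).card)).card : ℝ) *
        (x * (x : ℝ) ^ (-(1 / 25 : ℝ)))
      ≤ (k + 1) * (x * (κ * (4 : ℝ) ^ (-K) / (k + 1))) := by
        gcongr
        linarith
    _ = κ * (4 : ℝ) ^ (-K) * x := by field_simp

end Pool.Agent.Lib.MP_ba437d_nt
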