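import Pool.Agent.Lib.MP_ba437d_nt.Star

/-!
MP_ba437d_nt: the first-order lower bound with overlap term.
-/

set_option autoImplicit false

namespace Pool.Agent.Lib.MP_ba437d_nt

open Finset Filter Topology

/-- the integers of `[1, x]` which are in no class -/
def unc (x : ℕ) (P : Finset ℕ) (a : ℕ → ℤ) : Finset ℕ :=
  (Icc 1 x).filter (fun n : ℕ => ∀ p ∈ P, ¬ ((n : ℤ) ≡ a p [ZMOD (p : ℤ)]))

theorem sv_empty (x : ℕ) (a : ℕ → ℤ) (P : Finset ℕ) :
    sv x a P ∅ = (Icc 1 x).filter (fun n : ℕ => ∀ p ∈ P, ¬ ((n : ℤ) ≡ a p [ZMOD (p : ℤ)])) := by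
  unfold sv cl
  simp

/-- the pointwise inequality `[h = 0] ≥ 1 - h + (h' - 1)₊` for `h' ≤ h` -/
theorem ptw (h h' : ℕ) (hh : h' ≤ h) :
    1 - (h : ℝ) + ((h' - 1 : ℕ) : ℝ) ≤ if h = 0 then (1 : ℝ) else 0 := by
  split_ifs with h0
  · subst h0
    have : h' = 0 := by omega
    subst this
    simp
  · have : h' - 1 ≤ h - 1 := by omega
    have h2 : ((h' - 1 : ℕ) : ℝ) ≤ ((h - 1 : ℕ) : ℝ) := by exact_mod_cast this
    rw [Nat.cast_sub (by omega : 1 ≤ h)] at h2
    push_cast at h2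
    linarith

theorem unc_ge (x : ℕ) (ε : ℝ) (P : Finset ℕ) (a : ℕ → ℤ) (M : Finset ℕ) (hM : M ⊆ Lrg x ε P) :
    ((sv x a (Sml x ε P) ∅).card : ℝ) -
      ∑ p ∈ Lrg x ε P, ((sv x a (Sml x ε P) {p}).card : ℝ) +
      ∑ n ∈ sv x a (Sml x ε P) ∅, (((hit M a n).card - 1 : ℕ) : ℝ) ≤ ((unc x P a).card : ℝ) := by
  classical
  have h1 : ((unc x P a).card : ℝ) = ∑ n ∈ sv x a (Sml x ε P) ∅,
      (if (hit (Lrg x ε P) a n).card = 0 then (1 : ℝ) else 0) := by
    rw [sum_ite, sum_const_zero, add_zero, sum_const, nsmul_eq_mul, mul_one]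
    congr 2
    ext n
    rw [sv_empty]
    simp only [unc, mem_filter, card_eq_zero, hit, filter_eq_empty_iff]
    constructor
    · rintro ⟨h1, h2⟩
      exact ⟨⟨h1, fun p hp => h2 p (mem_Sml.1 hp).1⟩, fun p hp => h2 p (mem_Lrg.1 hp).1⟩
    · rintro ⟨⟨h1, h2⟩, h3⟩
      refine ⟨h1, fun p hp => ?_⟩
      rcases le_or_gt (p : ℝ) ((x : ℝ) ^ ε) with h | h
      · exact h2 p (mem_Sml.2 ⟨hp, h⟩)
      · exact h3 (mem_Lrg.2 ⟨hp, h⟩)
  have h2 : ∑ p ∈ Lrg x ε P, ((sv x a (Sml x ε P) {p}).card : ℝ) =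
      ∑ n ∈ sv x a (Sml x ε P) ∅, (((hit (Lrg x ε P) a n).card : ℕ) : ℝ) := by
    have h3 := double x a ∅ (Lrg x ε P) 1
      (fun n => ∀ p ∈ Sml x ε P, ¬ ((n : ℤ) ≡ a p [ZMOD (p : ℤ)]))
    simp only [Nat.choose_one_right, empty_union] at h3
    rw [powersetCard_one, sum_map] at h3
    exact h3.symm
  rw [h1, h2]
  have h4 : ((sv x a (Sml x ε P) ∅).card : ℝ) = ∑ n ∈ sv x a (Sml x ε P) ∅, (1 : ℝ) := by
    rw [sum_const, nsmul_eq_mul, mul_one]
  rw [h4, ← sum_sub_distrib, ← sum_add_distrib]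
  apply sum_le_sum
  intro n _
  apply ptw
  apply card_le_card
  intro p hp
  unfold hit at *
  rw [mem_filter] at *
  exact ⟨hM hp.1, hp.2⟩

theorem W_singleton (p : ℕ) : W {p} = 1 / (p : ℝ) := by simp [W]

theorem W_empty : W ∅ = 1 := by simp [W]

theorem Lrg_disj {x : ℕ} {ε : ℝ} {P D : Finset ℕ} (hD : D ⊆ Lrg x ε P) :
    Disjoint D (Sml x ε P) := by
  rw [disjoint_left]
  intro p hp hp'
  have h1 := (mem_Lrg.1 (hD hp)).2
  have h2 := (mem_Sml.1 hp').2
  linarith

/-- the first-order bound with overlap term, and the sieve lemma, with the same exponent -/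
theorem star (K : ℝ) (hK0 : 0 ≤ K) (β₀ η ε₀ : ℝ) (hβ₀ : 0 < β₀) (hη : 0 < η) (hε₀ : 0 < ε₀) :
    ∃ ε : ℝ, 0 < ε ∧ ε ≤ ε₀ ∧ ∀ᶠ x : ℕ in atTop, ∀ (P : Finset ℕ) (a : ℕ → ℤ),
      (∀ p ∈ P, p.Prime ∧ p ≤ x) → ∑ p ∈ P, 1 / (p : ℝ) ≤ K →
      (∀ D ⊆ Lrg x ε P, (x : ℝ) ^ (-(1 - β₀)) ≤ W D →
        |((sv x a (Sml x ε P) D).card : ℝ) - x * W D * V x ε P| ≤ η * (x * W D * V x ε P)) ∧
      (∀ M ⊆ Lrg x ε P, x * V x ε P * (1 - ∑ p ∈ Lrg x ε P, 1 / (p : ℝ) - η) +
        ∑ n ∈ sv x a (Sml x ε P) ∅, (((hit M a n).card - 1 : ℕ) : ℝ) ≤ ((unc x P a).card : ℝ)) := by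
  classical
  set v := Real.exp (-(Real.log 4 * K)) with hv
  have hv0 : 0 < v := Real.exp_pos _
  have hv1 : v ≤ 1 := by
    rw [hv, Real.exp_le_one_iff]
    have : 0 ≤ Real.log 4 * K := mul_nonneg (Real.log_nonneg (by norm_num)) hK0
    linarith
  set β := min (min β₀ (1 / 2)) (η * v / 16) with hβ
  have hβ0 : 0 < β := lt_min (lt_min hβ₀ (by norm_num)) (by positivity)
  have hβ1 : β ≤ β₀ := (min_le_left _ _).trans (min_le_left _ _)
  have hβ2 : β ≤ 1 / 2 := (min_le_left _ _).trans (min_le_right _ _)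
  have hβ3 : β ≤ η * v / 16 := min_le_right _ _
  set τ := min η (η / (4 * (1 + K))) with hτ
  have hτ0 : 0 < τ := lt_min hη (by positivity)
  have hτ1 : τ ≤ η := min_le_left _ _
  have hτ2 : τ * (1 + K) ≤ η / 4 := by
    have : τ ≤ η / (4 * (1 + K)) := min_le_right _ _
    calc τ * (1 + K) ≤ η / (4 * (1 + K)) * (1 + K) := by gcongr
      _ = η / 4 := by field_simp
  obtain ⟨ε, hε0, hε1, hF⟩ := fund K hK0 β τ (min ε₀ (1 / 4)) hβ0 hτ0 (lt_min hε₀ (by norm_num))
  refine ⟨ε, hε0, hε1.trans (min_le_left _ _), ?_⟩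
  have hml := mass_le (1 - β) 1 (by linarith) (by linarith) (η * v / 16) (by positivity)
  have hcl := count_le (η * v / 8) (by positivity)
  filter_upwards [hF, hml, hcl, eventually_ge_atTop 1] with x h1 h2 h3 hx1 P a hP hK
  have hx0 : (1 : ℝ) ≤ x := by exact_mod_cast hx1
  have hxp : (0 : ℝ) < x := by linarith
  have hPp : ∀ p ∈ P, p.Prime := fun p hp => (hP p hp).1
  have hLp : ∀ p ∈ Lrg x ε P, p.Prime := fun p hp => hPp p (mem_Lrg.1 hp).1
  have hV : v ≤ V x ε P := prod_ge _ (fun p hp => hPp p (mem_Sml.1 hp).1) (sum_Sml_le hK)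
  have hV0 : 0 < V x ε P := lt_of_lt_of_le hv0 hV
  have hM : ∑ p ∈ Lrg x ε P, 1 / (p : ℝ) ≤ K := sum_Lrg_le hK
  refine ⟨fun D hD hW => ?_, fun M hM' => ?_⟩
  · have h4 := h1 P a hPp hK D (fun p hp => hLp p (hD hp)) (Lrg_disj hD) (by
      refine le_trans ?_ hW
      apply Real.rpow_le_rpow_of_exponent_le hx0
      linarith)
    refine h4.trans ?_
    have : 0 ≤ x * W D * V x ε P := mul_nonneg (mul_nonneg hxp.le (W_nonneg D)) hV0.le
    gcongr
  · refine le_trans ?_ (unc_ge x ε P a M hM')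
    have hS : x * V x ε P * (1 - τ) ≤ ((sv x a (Sml x ε P) ∅).card : ℝ) := by
      have h4 := h1 P a hPp hK ∅ (by simp) (by simp) (by
        rw [W_empty]
        apply Real.rpow_le_one_of_one_le_of_nonpos hx0
        linarith)
      rw [W_empty, mul_one] at h4
      have := (abs_le.1 h4).1
      linarith
    have hL : ∑ p ∈ Lrg x ε P, ((sv x a (Sml x ε P) {p}).card : ℝ) ≤
        x * V x ε P * (1 + τ) * (∑ p ∈ Lrg x ε P, 1 / (p : ℝ)) +
        x * (2 * (η * v / 8)) + η * v / 8 * x := by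
      set A : Finset ℕ := (Lrg x ε P).filter (fun p : ℕ => (p : ℝ) ≤ (x : ℝ) ^ (1 - β)) with hA
      set B : Finset ℕ := (Lrg x ε P).filter (fun p : ℕ => ¬ (p : ℝ) ≤ (x : ℝ) ^ (1 - β)) with hB
      have hsum := sum_filter_add_sum_filter_not (Lrg x ε P)
        (fun p : ℕ => (p : ℝ) ≤ (x : ℝ) ^ (1 - β))
        (fun p => ((sv x a (Sml x ε P) {p}).card : ℝ))
      rw [← hA, ← hB] at hsum
      rw [← hsum]
      have hAle : ∑ p ∈ A, ((sv x a (Sml x ε P) {p}).card : ℝ) ≤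
          x * V x ε P * (1 + τ) * (∑ p ∈ Lrg x ε P, 1 / (p : ℝ)) := by
        calc ∑ p ∈ A, ((sv x a (Sml x ε P) {p}).card : ℝ)
            ≤ ∑ p ∈ A, x * V x ε P * (1 + τ) * (1 / (p : ℝ)) := by
              apply sum_le_sum
              intro p hp
              rw [hA, mem_filter] at hp
              have hp0 : (0 : ℝ) < p := by exact_mod_cast (hLp p hp.1).pos
              have h4 := h1 P a hPp hK {p} (by simpa using hLp p hp.1)
                (Lrg_disj (singleton_subset_iff.2 hp.1)) (by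
                  rw [W_singleton, Real.rpow_neg hxp.le, ← one_div]
                  exact one_div_le_one_div_of_le hp0 hp.2)
              rw [W_singleton] at h4
              have := (abs_le.1 h4).2
              linarith
          _ = x * V x ε P * (1 + τ) * ∑ p ∈ A, (1 / (p : ℝ)) := by rw [mul_sum]
          _ ≤ _ := by
            apply mul_le_mul_of_nonneg_left _ (by positivity)
            exact sum_le_sum_of_subset_of_nonneg (filter_subset _ _) (fun p _ _ => by positivity)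
      have hBle : ∑ p ∈ B, ((sv x a (Sml x ε P) {p}).card : ℝ) ≤
          x * (2 * (η * v / 8)) + η * v / 8 * x := by
        have hBp : ∀ p ∈ B, p.Prime := fun p hp => hLp p (mem_filter.1 hp).1
        have hBx : ∀ p ∈ B, p ≤ x := fun p hp => (hP p (mem_Lrg.1 (mem_filter.1 hp).1).1).2
        have h5 : ∑ p ∈ B, 1 / (p : ℝ) ≤ 2 * (η * v / 8) := by
          refine (h2 B hBp (fun p hp => ⟨not_le.1 (mem_filter.1 hp).2, ?_⟩)).trans ?_
          · rw [Real.rpow_one]
            exact_mod_cast hBx p hp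
          · have h6 : Real.log (1 / (1 - β)) ≤ 2 * β := by
              have h7 : Real.log (1 / (1 - β)) ≤ 1 / (1 - β) - 1 :=
                Real.log_le_sub_one_of_pos (by
                  apply one_div_pos.2; linarith)
              have h8 : 1 / (1 - β) - 1 ≤ 2 * β := by
                rw [sub_le_iff_le_add, div_le_iff₀ (by linarith)]
                nlinarith
              linarith
            linarith
        calc ∑ p ∈ B, ((sv x a (Sml x ε P) {p}).card : ℝ)
            ≤ ∑ p ∈ B, (x * (1 / (p : ℝ)) + 1) := by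
              apply sum_le_sum
              intro p hp
              have h7 : ((sv x a (Sml x ε P) {p}).card : ℝ) ≤ ((cl x a {p}).card : ℝ) := by
                exact_mod_cast card_le_card (filter_subset _ _)
              have h8 := (abs_le.1 (cl_card x a {p} (by simpa using hBp p hp))).2
              rw [W_singleton] at h8
              linarith
          _ = x * (∑ p ∈ B, 1 / (p : ℝ)) + (B.card : ℝ) := by
              rw [sum_add_distrib, mul_sum, sum_const, nsmul_eq_mul, mul_one]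
          _ ≤ _ := add_le_add (mul_le_mul_of_nonneg_left h5 hxp.le) (h3 B hBp hBx)
      linarith
    have hM0 : 0 ≤ ∑ p ∈ Lrg x ε P, 1 / (p : ℝ) := sum_nonneg fun p _ => by positivity
    set m := ∑ p ∈ Lrg x ε P, 1 / (p : ℝ) with hm
    have hxV : 0 < x * V x ε P := by positivity
    have h9 : x * v ≤ x * V x ε P := by gcongr
    have h10 : τ * (1 + m) ≤ η / 4 := by
      refine le_trans ?_ hτ2
      gcongr
    have h11 : x * V x ε P * (τ * (1 + m)) ≤ x * V x ε P * (η / 4) := by gcongr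
    have h12 : η * v / 8 * x * 3 ≤ x * V x ε P * (η * 3 / 8) := by
      calc η * v / 8 * x * 3 = (x * v) * (η * 3 / 8) := by ring
        _ ≤ (x * V x ε P) * (η * 3 / 8) := by gcongr
    have h13 : x * V x ε P * (1 - m - η) ≤ x * V x ε P * (1 - τ) -
        (x * V x ε P * (1 + τ) * m + x * (2 * (η * v / 8)) + η * v / 8 * x) := by
      have : x * V x ε P * (1 - τ) -
        (x * V x ε P * (1 + τ) * m + x * (2 * (η * v / 8)) + η * v / 8 * x) =
        x * V x ε P * (1 - m) - x * V x ε P * (τ * (1 + m)) - η * v / 8 * x * 3 := by ring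
      rw [this]
      have h14 : 0 ≤ x * V x ε P * (η * 3 / 8) := by positivity
      nlinarith
    linarith

end Pool.Agent.Lib.MP_ba437d_nt
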