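import Pool.Agent.Lib.MP_ba437d_nt.Second

/-!
MP_ba437d_nt: the criterion and the theorem for bounded multiplicity.
-/

set_option autoImplicit false

namespace Pool.Agent.Lib.MP_ba437d_nt

open Finset Filter Topology

theorem Lrg_split {x : ℕ} (hx : 1 ≤ x) {ε s : ℝ} (hs : ε ≤ s) (P : Finset ℕ) (f : ℕ → ℝ) :
    ∑ p ∈ Lrg x ε P, f p = ∑ p ∈ Mid x ε s P, f p + ∑ p ∈ Lrg x s P, f p := by
  classical
  have hx0 : (1 : ℝ) ≤ x := by exact_mod_cast hx
  rw [← sum_union]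
  · apply sum_congr _ (fun _ _ => rfl)
    ext p
    simp only [mem_union, mem_Lrg, mem_Mid]
    constructor
    · rintro ⟨h1, h2⟩
      rcases le_or_gt (p : ℝ) ((x : ℝ) ^ s) with h | h
      · exact Or.inl ⟨h1, h2, h⟩
      · exact Or.inr ⟨h1, h⟩
    · rintro (⟨h1, h2, h3⟩ | ⟨h1, h2⟩)
      · exact ⟨h1, h2⟩
      · exact ⟨h1, lt_of_le_of_lt (Real.rpow_le_rpow_of_exponent_le hx0 hs) h2⟩
  · rw [disjoint_left]
    intro p hp hp'
    rw [mem_Mid] at hp
    rw [mem_Lrg] at hp'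
    linarith [hp.2.2, hp'.2]

theorem rpow_neg_small (ε : ℝ) (hε : 0 < ε) (c : ℝ) (hc : 0 < c) :
    ∀ᶠ x : ℕ in atTop, (x : ℝ) ^ (-ε) ≤ c := by
  have h := (tendsto_rpow_neg_atTop hε).comp tendsto_natCast_atTop_atTop
  have h2 := h.eventually (gt_mem_nhds hc)
  filter_upwards [h2] with x hx
  exact hx.le

/-- the criterion -/
theorem crit (K η : ℝ) (hK0 : 0 ≤ K) (hη : 0 < η) (hη1 : η < 1 / 3) :
    ∃ ε c : ℝ, 0 < ε ∧ ε ≤ 1 / 3 - η ∧ 0 < c ∧ ∀ᶠ x : ℕ in atTop, ∀ (P : Finset ℕ) (a : ℕ → ℤ),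
      (∀ p ∈ P, p.Prime ∧ p ≤ x) → ∑ p ∈ P, 1 / (p : ℝ) ≤ K →
      ∑ p ∈ Lrg x (1 / 3 - η) P, 1 / (p : ℝ) + η ≤
        1 - ∑ p ∈ Mid x ε (1 / 3 - η) P, 1 / (p : ℝ) +
          (∑ p ∈ Mid x ε (1 / 3 - η) P, 1 / (p : ℝ)) ^ 2 / 2 -
          (∑ p ∈ Mid x ε (1 / 3 - η) P, 1 / (p : ℝ)) ^ 3 / 6 →
      c * x ≤ ((unc x P a).card : ℝ) := by
  set v := Real.exp (-(Real.log 4 * K)) with hv
  have hv0 : 0 < v := Real.exp_pos _
  have hden : 1 ≤ 1 + K ^ 2 + K ^ 3 := by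
    have : 0 ≤ K ^ 2 + K ^ 3 := by positivity
    linarith
  set η' := η / (4 * (1 + K ^ 2 + K ^ 3)) with hη'
  have hη'0 : 0 < η' := by positivity
  have hη'1 : η' * (1 + K ^ 2 + K ^ 3) = η / 4 := by
    rw [hη']; field_simp
  obtain ⟨ε, hε0, hε1, hS⟩ := star K hK0 (3 * η) η' (1 / 3 - η) (by linarith) hη'0 (by linarith)
  refine ⟨ε, η * v / 2, hε0, hε1, by positivity, ?_⟩
  filter_upwards [hS, eventually_ge_atTop 1, rpow_neg_small ε hε0 (η / (2 * (1 + K))) (by positivity)]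
    with x hx hx1 hxe P a hP hK hcr
  have hx0 : (1 : ℝ) ≤ x := by exact_mod_cast hx1
  have hxp : (0 : ℝ) < x := by linarith
  obtain ⟨h1, h2⟩ := hx P a hP hK
  have hV : v ≤ V x ε P := prod_ge _ (fun p hp => (hP p (mem_Sml.1 hp).1).1) (sum_Sml_le hK)
  have hV0 : 0 < V x ε P := lt_of_lt_of_le hv0 hV
  have hML : Mid x ε (1 / 3 - η) P ⊆ Lrg x ε P := by
    intro p hp
    rw [mem_Mid] at hp
    rw [mem_Lrg]
    exact ⟨hp.1, hp.2.1⟩
  have h3 := h2 _ hML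
  have hMK : ∑ p ∈ Mid x ε (1 / 3 - η) P, 1 / (p : ℝ) ≤ K :=
    (sum_le_sum_of_subset_of_nonneg hML (fun p _ _ => by positivity)).trans (sum_Lrg_le hK)
  have h4 := overlap3 hx1 hη'0.le hV0.le h1 _ hML (1 / 3 - η) (by linarith) (by linarith)
    (fun p hp => (hP p (mem_Mid.1 hp).1).1) (fun p hp => (mem_Mid.1 hp).2.2) hMK
  rw [Lrg_split hx1 hε1] at h3
  set m1 := ∑ p ∈ Mid x ε (1 / 3 - η) P, 1 / (p : ℝ) with hm1
  set m2 := ∑ p ∈ Lrg x (1 / 3 - η) P, 1 / (p : ℝ) with hm2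
  have h5 : (x : ℝ) ^ (-ε) * K / 2 ≤ η / 4 := by
    have : (x : ℝ) ^ (-ε) * K ≤ η / (2 * (1 + K)) * K := by gcongr
    have h6 : η / (2 * (1 + K)) * K ≤ η / 2 := by
      rw [div_mul_eq_mul_div, div_le_div_iff₀ (by positivity) (by norm_num)]
      nlinarith
    linarith
  have h7 : x * V x ε P * (η / 2) ≤ x * V x ε P * (1 - (m1 + m2) - η') +
      x * V x ε P * (m1 ^ 2 / 2 - m1 ^ 3 / 6 - (x : ℝ) ^ (-ε) * K / 2 - η' * (K ^ 2 + K ^ 3)) := by
    rw [← mul_add]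
    apply mul_le_mul_of_nonneg_left _ (by positivity)
    have : η' + η' * (K ^ 2 + K ^ 3) = η / 4 := by rw [← hη'1]; ring
    linarith
  have h8 : η * v / 2 * x ≤ x * V x ε P * (η / 2) := by
    calc η * v / 2 * x = x * v * (η / 2) := by ring
      _ ≤ _ := by gcongr
  linarith

theorem log_bound : Real.log (25 / 12) ≤ 0.74 := by
  rw [Real.log_le_iff_le_exp (by norm_num)]
  have h := Real.sum_le_exp_of_nonneg (x := 0.74) (by norm_num) 6
  refine le_trans ?_ h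
  simp only [sum_range_succ, range_zero, sum_empty, Nat.factorial]
  norm_num

/-- bounded multiplicity -/
theorem bounded (T : ℕ) (hT : 1 ≤ T) :
    ∃ κ : ℝ, 0 < κ ∧ ∀ K : ℝ, 0 ≤ K → ∃ ε c : ℝ, 0 < ε ∧ 0 < c ∧
      ∀ᶠ x : ℕ in atTop, ∀ (P : Finset ℕ) (a : ℕ → ℤ),
      (∀ p ∈ P, p.Prime ∧ p ≤ x) → ∑ p ∈ P, 1 / (p : ℝ) ≤ K →
      ∑ p ∈ Lrg x ε P, 1 / (p : ℝ) ≤ 1 + κ →
      ∑ n ∈ (Icc 1 x).filter (fun n => T < (hit (Mid x (8 / 25) (12 / 25) P) a n).card),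
        ((hit (Mid x (8 / 25) (12 / 25) P) a n).card : ℝ) ^ 2 ≤
        κ * (4 : ℝ) ^ (-K) * x →
      c * x ≤ ((unc x P a).card : ℝ) := by
  classical
  have hT0 : (0 : ℝ) < T := by exact_mod_cast hT
  have hT1 : (1 : ℝ) ≤ T := by exact_mod_cast hT
  refine ⟨1 / (2000 * T), by positivity, fun K hK0 => ?_⟩
  set κ : ℝ := 1 / (2000 * T) with hκ
  have hκ0 : 0 < κ := by positivity
  have hκ1 : κ ≤ 1 / 2000 := by
    rw [hκ]
    exact one_div_le_one_div_of_le (by norm_num) (by linarith)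
  have hκT : κ * T = 1 / 2000 := by rw [hκ]; field_simp
  set v := Real.exp (-(Real.log 4 * K)) with hv
  have hv0 : 0 < v := Real.exp_pos _
  have h4v : (4 : ℝ) ^ (-K) = v := by
    rw [hv, Real.rpow_def_of_pos (by norm_num)]
    congr 1
    ring
  have hden : 1 ≤ 1 + K ^ 2 + K ^ 3 := by
    have : 0 ≤ K ^ 2 + K ^ 3 := by positivity
    linarith
  set η' := κ / (1 + K ^ 2 + K ^ 3) with hη'
  have hη'0 : 0 < η' := by positivity
  have hη'1 : η' * (1 + K ^ 2 + K ^ 3) = κ := by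
    rw [hη']; field_simp
  have hη'2 : η' ≤ κ := by
    have : η' * 1 ≤ η' * (1 + K ^ 2 + K ^ 3) := by gcongr
    linarith
  have hη'3 : η' * (K ^ 2 + K ^ 3) ≤ κ := by nlinarith
  have hη'4 : η' * K ^ 2 ≤ κ := by
    have : 0 ≤ η' * K ^ 3 := by positivity
    nlinarith
  obtain ⟨ε, hε0, hε1, hS⟩ := star K hK0 (1 / 25) η' (8 / 25) (by norm_num) hη'0 (by norm_num)
  refine ⟨ε, κ * v, hε0, by positivity, ?_⟩
  have hml := mass_le (12 / 25) 1 (by norm_num) (by norm_num) (1 / 200) (by norm_num)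
  filter_upwards [hS, eventually_ge_atTop 1, rpow_neg_small ε hε0 (κ / (1 + K)) (by positivity),
    hml] with x hx hx1 hxe hml' P a hP hK hL hmul
  have hx0 : (1 : ℝ) ≤ x := by exact_mod_cast hx1
  have hxp : (0 : ℝ) < x := by linarith
  obtain ⟨h1, h2⟩ := hx P a hP hK
  have hV : v ≤ V x ε P := prod_ge _ (fun p hp => (hP p (mem_Sml.1 hp).1).1) (sum_Sml_le hK)
  have hV0 : 0 < V x ε P := lt_of_lt_of_le hv0 hV
  have hxV : 0 < x * V x ε P := by positivity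
  have hxv : κ * v * x ≤ x * V x ε P * κ := by
    calc κ * v * x = x * v * κ := by ring
      _ ≤ _ := by gcongr
  have h5 : (x : ℝ) ^ (-ε) * K / 2 ≤ κ := by
    have h6 : (x : ℝ) ^ (-ε) * K ≤ κ / (1 + K) * K := by gcongr
    have h7 : κ / (1 + K) * K ≤ κ := by
      rw [div_mul_eq_mul_div, div_le_iff₀ (by positivity)]
      nlinarith
    linarith
  -- the three ranges
  have hs1 := Lrg_split hx1 hε1 P (fun p => 1 / (p : ℝ))
  have hs2 := Lrg_split hx1 (show (8 / 25 : ℝ) ≤ 12 / 25 by norm_num) P (fun p => 1 / (p : ℝ))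
  have hc : ∑ p ∈ Lrg x (12 / 25) P, 1 / (p : ℝ) ≤ 0.745 := by
    have h8 := hml' (Lrg x (12 / 25) P) (fun p hp => (hP p (mem_Lrg.1 hp).1).1) (by
      intro p hp
      refine ⟨(mem_Lrg.1 hp).2, ?_⟩
      rw [Real.rpow_one]
      exact_mod_cast (hP p (mem_Lrg.1 hp).1).2)
    have e : (1 : ℝ) / (12 / 25) = 25 / 12 := by norm_num
    rw [e] at h8
    have := log_bound
    linarith
  have hMa : Mid x ε (8 / 25) P ⊆ Lrg x ε P := by
    intro p hp
    rw [mem_Mid] at hp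
    rw [mem_Lrg]
    exact ⟨hp.1, hp.2.1⟩
  have hMb : Mid x (8 / 25) (12 / 25) P ⊆ Lrg x ε P := by
    intro p hp
    rw [mem_Mid] at hp
    rw [mem_Lrg]
    exact ⟨hp.1, lt_of_le_of_lt (Real.rpow_le_rpow_of_exponent_le hx0 hε1) hp.2.1⟩
  set ma := ∑ p ∈ Mid x ε (8 / 25) P, 1 / (p : ℝ) with hma
  set mb := ∑ p ∈ Mid x (8 / 25) (12 / 25) P, 1 / (p : ℝ) with hmb
  set mc := ∑ p ∈ Lrg x (12 / 25) P, 1 / (p : ℝ) with hmc
  have hma0 : 0 ≤ ma := sum_nonneg fun p _ => by positivity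
  have hmb0 : 0 ≤ mb := sum_nonneg fun p _ => by positivity
  have hmc0 : 0 ≤ mc := sum_nonneg fun p _ => by positivity
  set m := ∑ p ∈ Lrg x ε P, 1 / (p : ℝ) with hm
  have hmsum : m = ma + (mb + mc) := by rw [hs1, hs2]
  have hmK : m ≤ K := sum_Lrg_le hK
  rcases le_or_gt m (19 / 20) with hcase | hcase
  · -- small mass
    have h3 := h2 ∅ (by simp)
    have h4 : 0 ≤ ∑ n ∈ sv x a (Sml x ε P) ∅, (((hit ∅ a n).card - 1 : ℕ) : ℝ) :=
      sum_nonneg fun n _ => by positivity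
    have h6 : x * V x ε P * κ ≤ x * V x ε P * (1 - m - η') := by
      apply mul_le_mul_of_nonneg_left _ hxV.le
      linarith
    linarith
  · have hab : 1 / 10 ≤ ma ∨ 1 / 10 ≤ mb := by
      by_contra hcon
      push Not at hcon
      linarith [hcon.1, hcon.2]
    rcases hab with ha | hb
    · -- third-order overlap
      have h3 := h2 _ hMa
      have h4 := overlap3 hx1 hη'0.le hV0.le h1 _ hMa (8 / 25) (by norm_num) (by norm_num)
        (fun p hp => (hP p (mem_Mid.1 hp).1).1) (fun p hp => (mem_Mid.1 hp).2.2)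
        (show ma ≤ K by linarith)
      rw [← hma] at h4
      have h6 : x * V x ε P * κ ≤ x * V x ε P * (1 - m - η') +
          x * V x ε P * (ma ^ 2 / 2 - ma ^ 3 / 6 - (x : ℝ) ^ (-ε) * K / 2 -
            η' * (K ^ 2 + K ^ 3)) := by
        rw [← mul_add]
        apply mul_le_mul_of_nonneg_left _ hxV.le
        have h7 : ma ≤ 1.001 := by linarith
        have h8 : (1 / 100 : ℝ) * 0.3 ≤ ma ^ 2 / 2 - ma ^ 3 / 6 := by
          have e : ma ^ 2 / 2 - ma ^ 3 / 6 = ma ^ 2 * (1 / 2 - ma / 6) := by ring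
          rw [e]
          have h9 : (1 / 100 : ℝ) ≤ ma ^ 2 := by nlinarith
          have h10 : (0.3 : ℝ) ≤ 1 / 2 - ma / 6 := by linarith
          exact mul_le_mul h9 h10 (by norm_num) (by positivity)
        linarith
      linarith
    · -- second-order overlap
      have h3 := h2 _ hMb
      have h4 := overlap2 hx1 hη'0.le hV0.le h1 _ hMb (12 / 25) (by norm_num)
        (fun p hp => (hP p (mem_Mid.1 hp).1).1) (fun p hp => (mem_Mid.1 hp).2.2)
        (show mb ≤ K by linarith) T hT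
        ((Icc 1 x).filter (fun n => T < (hit (Mid x (8 / 25) (12 / 25) P) a n).card)) (by
          intro n hn hnX
          by_contra hcon
          push Not at hcon
          exact hnX (mem_filter.2 ⟨hn, hcon⟩))
      rw [← hmb] at h4
      have h6 : ∑ n ∈ (Icc 1 x).filter (fun n => T < (hit (Mid x (8 / 25) (12 / 25) P) a n).card),
        ((hit (Mid x (8 / 25) (12 / 25) P) a n).card : ℝ) ^ 2 ≤ x * V x ε P * (2 * κ) := by
        refine hmul.trans ?_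
        rw [h4v]
        have : 0 ≤ x * V x ε P * κ := by positivity
        linarith
      have h7 : x * V x ε P * κ ≤ x * V x ε P * (1 - m - η') +
          (2 / (T : ℝ) * (x * V x ε P * (mb ^ 2 / 2 - (x : ℝ) ^ (-ε) * K / 2 - η' * K ^ 2)) -
            x * V x ε P * (2 * κ)) := by
        have h8 : (1 / 200 : ℝ) - 2 * κ ≤ mb ^ 2 / 2 - (x : ℝ) ^ (-ε) * K / 2 - η' * K ^ 2 := by
          have : (1 / 100 : ℝ) ≤ mb ^ 2 := by nlinarith
          linarith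
        have h9 : 2 / (T : ℝ) * (x * V x ε P * (1 / 200 - 2 * κ)) ≤
            2 / (T : ℝ) * (x * V x ε P * (mb ^ 2 / 2 - (x : ℝ) ^ (-ε) * K / 2 - η' * K ^ 2)) := by
          gcongr
        have h10 : x * V x ε P * (5 * κ) ≤ 2 / (T : ℝ) * (x * V x ε P * (1 / 200 - 2 * κ)) := by
          have h11 : 5 * κ ≤ 2 / (T : ℝ) * (1 / 200 - 2 * κ) := by
            rw [div_mul_eq_mul_div, le_div_iff₀ hT0]
            nlinarith
          calc x * V x ε P * (5 * κ) ≤ x * V x ε P * (2 / (T : ℝ) * (1 / 200 - 2 * κ)) := by gcongr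
            _ = _ := by ring
        have h12 : x * V x ε P * (-2 * κ) ≤ x * V x ε P * (1 - m - η') := by
          apply mul_le_mul_of_nonneg_left _ hxV.le
          linarith
        linarith
      linarith

end Pool.Agent.Lib.MP_ba437d_nt
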