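import Pool.Agent.Lib.MP_ba437d_nt.First

/-!
MP_ba437d_nt: second and third order terms, bounded multiplicity.
-/

set_option autoImplicit false

namespace Pool.Agent.Lib.MP_ba437d_nt

open Finset Filter Topology

/-- primes of `P` in `(x^s, x^t]` -/
noncomputable def Mid (x : ℕ) (s t : ℝ) (P : Finset ℕ) : Finset ℕ := by
  classical exact P.filter (fun p => (x : ℝ) ^ s < (p : ℝ) ∧ (p : ℝ) ≤ (x : ℝ) ^ t)

theorem mem_Mid {x : ℕ} {s t : ℝ} {P : Finset ℕ} {p : ℕ} :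
    p ∈ Mid x s t P ↔ p ∈ P ∧ (x : ℝ) ^ s < (p : ℝ) ∧ (p : ℝ) ≤ (x : ℝ) ^ t := by
  classical exact mem_filter

theorem W_ge {x : ℕ} (hx : 1 ≤ x) (s : ℝ) (D : Finset ℕ) (hD : ∀ p ∈ D, p.Prime)
    (hDs : ∀ p ∈ D, (p : ℝ) ≤ (x : ℝ) ^ s) (j : ℕ) (hj : D.card = j) :
    (x : ℝ) ^ (-(j * s)) ≤ W D := by
  have hxp : (0 : ℝ) < x := by exact_mod_cast hx
  have h1 : ∏ _p ∈ D, (x : ℝ) ^ (-s) ≤ W D := by
    unfold W
    apply Finset.prod_le_prod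
    · intro p _; positivity
    · intro p hp
      have : (0 : ℝ) < p := by exact_mod_cast (hD p hp).pos
      rw [Real.rpow_neg hxp.le, ← one_div]
      exact one_div_le_one_div_of_le this (hDs p hp)
  rw [prod_const, hj, ← Real.rpow_natCast, ← Real.rpow_mul hxp.le] at h1
  refine le_trans (le_of_eq ?_) h1
  congr 1
  ring

/-- moments of the number of hits -/
theorem mom {x : ℕ} {ε η β₀ : ℝ} {P : Finset ℕ} {a : ℕ → ℤ}
    (h : ∀ D ⊆ Lrg x ε P, (x : ℝ) ^ (-(1 - β₀)) ≤ W D →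
      |((sv x a (Sml x ε P) D).card : ℝ) - x * W D * V x ε P| ≤ η * (x * W D * V x ε P))
    (M : Finset ℕ) (hM : M ⊆ Lrg x ε P) (j : ℕ)
    (hW : ∀ D ∈ powersetCard j M, (x : ℝ) ^ (-(1 - β₀)) ≤ W D) :
    |∑ n ∈ sv x a (Sml x ε P) ∅, (((hit M a n).card.choose j : ℕ) : ℝ) - x * V x ε P * E j M| ≤
      η * (x * V x ε P * E j M) := by
  have h1 := double x a ∅ M j (fun n => ∀ p ∈ Sml x ε P, ¬ ((n : ℤ) ≡ a p [ZMOD (p : ℤ)]))
  simp only [empty_union] at h1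
  have h2 : ∑ n ∈ sv x a (Sml x ε P) ∅, (((hit M a n).card.choose j : ℕ) : ℝ) =
      ∑ Q ∈ powersetCard j M, ((sv x a (Sml x ε P) Q).card : ℝ) := h1
  rw [h2]
  unfold E
  rw [mul_sum, ← sum_sub_distrib, mul_sum]
  refine (abs_sum_le_sum_abs _ _).trans (sum_le_sum fun D hD => ?_)
  have h3 := h D ((mem_powersetCard.1 hD).1.trans hM) (hW D hD)
  have e : x * V x ε P * W D = x * W D * V x ε P := by ring
  rw [e]
  exact h3

theorem sq_sum_le {x : ℕ} (hx : 1 ≤ x) (s : ℝ) (M : Finset ℕ)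
    (hM : ∀ p ∈ M, (x : ℝ) ^ s < (p : ℝ)) :
    ∑ p ∈ M, (1 / (p : ℝ)) ^ 2 ≤ (x : ℝ) ^ (-s) * ∑ p ∈ M, 1 / (p : ℝ) := by
  have hxp : (0 : ℝ) < x := by exact_mod_cast hx
  rw [mul_sum]
  apply sum_le_sum
  intro p hp
  have h1 := hM p hp
  have h0 : 0 < (x : ℝ) ^ s := Real.rpow_pos_of_pos hxp s
  rw [pow_two]
  apply mul_le_mul_of_nonneg_right _ (by positivity)
  rw [Real.rpow_neg hxp.le, ← one_div]
  exact one_div_le_one_div_of_le h0 h1.le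

/-- the pointwise third-order inequality -/
theorem ptw3 (h : ℕ) : ((h.choose 2 : ℕ) : ℝ) - ((h.choose 3 : ℕ) : ℝ) ≤ ((h - 1 : ℕ) : ℝ) := by
  rcases Nat.eq_zero_or_pos h with rfl | h0
  · simp
  · obtain ⟨m, rfl⟩ : ∃ m, h = m + 1 := ⟨h - 1, by omega⟩
    have e := Int.alternating_sum_range_choose_eq_choose (n := m) (m := 3)
    have e' : ∑ j ∈ range (3 + 1), (-1 : ℝ) ^ j * (((m + 1).choose j : ℕ) : ℝ) =
        (-1) ^ 3 * ((m.choose 3 : ℕ) : ℝ) := by exact_mod_cast e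
    simp only [sum_range_succ, range_zero, sum_empty, Nat.choose_zero_right,
      Nat.choose_one_right] at e'
    have h1 : (0 : ℝ) ≤ ((m.choose 3 : ℕ) : ℝ) := by positivity
    rw [Nat.add_sub_cancel]
    push_cast at e' ⊢
    linarith

theorem ptw2 (h T : ℕ) (hT : 1 ≤ T) (hh : h ≤ T) :
    2 / (T : ℝ) * ((h.choose 2 : ℕ) : ℝ) ≤ ((h - 1 : ℕ) : ℝ) := by
  rcases Nat.eq_zero_or_pos h with rfl | h0
  · simp
  · have hT0 : (0 : ℝ) < T := by exact_mod_cast hT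
    have h1 : ((h.choose 2 : ℕ) : ℝ) = (h : ℝ) * ((h : ℝ) - 1) / 2 := Nat.cast_choose_two ℝ h
    have h2 : ((h - 1 : ℕ) : ℝ) = (h : ℝ) - 1 := by
      rw [Nat.cast_sub h0]; simp
    rw [h1, h2]
    have h3 : (1 : ℝ) ≤ h := by exact_mod_cast h0
    have h4 : (h : ℝ) ≤ T := by exact_mod_cast hh
    have e : 2 / (T : ℝ) * ((h : ℝ) * ((h : ℝ) - 1) / 2) = (h : ℝ) * ((h : ℝ) - 1) / T := by
      field_simp
    rw [e, div_le_iff₀ hT0]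
    nlinarith

/-- third-order overlap -/
theorem overlap3 {x : ℕ} (hx : 1 ≤ x) {ε η β₀ K : ℝ} (hη : 0 ≤ η) {P : Finset ℕ}
    {a : ℕ → ℤ} (hV : 0 ≤ V x ε P)
    (h : ∀ D ⊆ Lrg x ε P, (x : ℝ) ^ (-(1 - β₀)) ≤ W D →
      |((sv x a (Sml x ε P) D).card : ℝ) - x * W D * V x ε P| ≤ η * (x * W D * V x ε P))
    (M : Finset ℕ) (hM : M ⊆ Lrg x ε P) (t : ℝ) (ht : 3 * t ≤ 1 - β₀) (ht0 : 0 ≤ t)
    (hMp : ∀ p ∈ M, p.Prime) (hMt : ∀ p ∈ M, (p : ℝ) ≤ (x : ℝ) ^ t)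
    (hK : ∑ p ∈ M, 1 / (p : ℝ) ≤ K) :
    x * V x ε P * ((∑ p ∈ M, 1 / (p : ℝ)) ^ 2 / 2 - (∑ p ∈ M, 1 / (p : ℝ)) ^ 3 / 6 -
      (x : ℝ) ^ (-ε) * K / 2 - η * (K ^ 2 + K ^ 3)) ≤
      ∑ n ∈ sv x a (Sml x ε P) ∅, (((hit M a n).card - 1 : ℕ) : ℝ) := by
  have hx0 : (1 : ℝ) ≤ x := by exact_mod_cast hx
  have hxp : (0 : ℝ) < x := by linarith
  have hW : ∀ j ≤ 3, ∀ D ∈ powersetCard j M, (x : ℝ) ^ (-(1 - β₀)) ≤ W D := by
    intro j hj D hD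
    rw [mem_powersetCard] at hD
    refine le_trans ?_ (W_ge hx t D (fun p hp => hMp p (hD.1 hp)) (fun p hp => hMt p (hD.1 hp)) j hD.2)
    apply Real.rpow_le_rpow_of_exponent_le hx0
    have : (j : ℝ) ≤ 3 := by exact_mod_cast hj
    nlinarith
  have h2 := mom h M hM 2 (hW 2 (by norm_num))
  have h3 := mom h M hM 3 (hW 3 le_rfl)
  set m := ∑ p ∈ M, 1 / (p : ℝ) with hm
  have hm0 : 0 ≤ m := sum_nonneg fun p _ => by positivity
  have hK0 : 0 ≤ K := hm0.trans hK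
  have e2 := E_two M
  rw [← hm] at e2
  have e3 := E_le 3 M
  rw [← hm] at e3
  have hsq := sq_sum_le hx ε M (fun p hp => (mem_Lrg.1 (hM hp)).2)
  rw [← hm] at hsq
  have hxe : 0 ≤ (x : ℝ) ^ (-ε) := by positivity
  have hsq' : ∑ p ∈ M, (1 / (p : ℝ)) ^ 2 ≤ (x : ℝ) ^ (-ε) * K :=
    hsq.trans (mul_le_mul_of_nonneg_left hK hxe)
  have hsq0 : 0 ≤ ∑ p ∈ M, (1 / (p : ℝ)) ^ 2 := sum_nonneg fun p _ => by positivity
  have hE3 : E 3 M ≤ m ^ 3 / 6 := by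
    refine e3.trans (le_of_eq ?_)
    norm_num [Nat.factorial]
  have hm2 : m ^ 2 ≤ K ^ 2 := pow_le_pow_left₀ hm0 hK 2
  have hm3 : m ^ 3 ≤ K ^ 3 := pow_le_pow_left₀ hm0 hK 3
  have hE2 : E 2 M ≤ K ^ 2 := by nlinarith
  have hE3' : E 3 M ≤ K ^ 3 := by nlinarith [pow_nonneg hK0 3]
  have hpt : ∑ n ∈ sv x a (Sml x ε P) ∅, (((hit M a n).card.choose 2 : ℕ) : ℝ) -
      ∑ n ∈ sv x a (Sml x ε P) ∅, (((hit M a n).card.choose 3 : ℕ) : ℝ) ≤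
      ∑ n ∈ sv x a (Sml x ε P) ∅, (((hit M a n).card - 1 : ℕ) : ℝ) := by
    rw [← sum_sub_distrib]
    exact sum_le_sum fun n _ => ptw3 _
  have h2' := (abs_le.1 h2).1
  have h3' := (abs_le.1 h3).2
  have hxV : 0 ≤ x * V x ε P := mul_nonneg hxp.le hV
  refine le_trans ?_ hpt
  have key : x * V x ε P * (m ^ 2 / 2 - m ^ 3 / 6 - (x : ℝ) ^ (-ε) * K / 2 - η * (K ^ 2 + K ^ 3)) ≤
      x * V x ε P * (E 2 M - E 3 M - η * (E 2 M + E 3 M)) := by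
    apply mul_le_mul_of_nonneg_left _ hxV
    have : η * (E 2 M + E 3 M) ≤ η * (K ^ 2 + K ^ 3) := by gcongr
    linarith
  refine key.trans ?_
  have e : x * V x ε P * (E 2 M - E 3 M - η * (E 2 M + E 3 M)) =
      (x * V x ε P * E 2 M - η * (x * V x ε P * E 2 M)) -
      (x * V x ε P * E 3 M + η * (x * V x ε P * E 3 M)) := by ring
  rw [e]
  linarith

/-- second-order overlap, with an exceptional set -/
theorem overlap2 {x : ℕ} (hx : 1 ≤ x) {ε η β₀ K : ℝ} (hη : 0 ≤ η) {P : Finset ℕ}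
    {a : ℕ → ℤ} (hV : 0 ≤ V x ε P)
    (h : ∀ D ⊆ Lrg x ε P, (x : ℝ) ^ (-(1 - β₀)) ≤ W D →
      |((sv x a (Sml x ε P) D).card : ℝ) - x * W D * V x ε P| ≤ η * (x * W D * V x ε P))
    (M : Finset ℕ) (hM : M ⊆ Lrg x ε P) (t : ℝ) (ht : 2 * t ≤ 1 - β₀)
    (hMp : ∀ p ∈ M, p.Prime) (hMt : ∀ p ∈ M, (p : ℝ) ≤ (x : ℝ) ^ t)
    (hK : ∑ p ∈ M, 1 / (p : ℝ) ≤ K) (T : ℕ) (hT : 1 ≤ T) (X : Finset ℕ)
    (hX : ∀ n ∈ Icc 1 x, n ∉ X → (hit M a n).card ≤ T) :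
    2 / (T : ℝ) * (x * V x ε P * ((∑ p ∈ M, 1 / (p : ℝ)) ^ 2 / 2 - (x : ℝ) ^ (-ε) * K / 2 -
      η * K ^ 2)) - ∑ n ∈ X, ((hit M a n).card : ℝ) ^ 2 ≤
      ∑ n ∈ sv x a (Sml x ε P) ∅, (((hit M a n).card - 1 : ℕ) : ℝ) := by
  classical
  have hx0 : (1 : ℝ) ≤ x := by exact_mod_cast hx
  have hxp : (0 : ℝ) < x := by linarith
  have hT0 : (0 : ℝ) < T := by exact_mod_cast hT
  have hT1 : (1 : ℝ) ≤ T := by exact_mod_cast hT
  have h2 := mom h M hM 2 (by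
    intro D hD
    rw [mem_powersetCard] at hD
    refine le_trans ?_ (W_ge hx t D (fun p hp => hMp p (hD.1 hp)) (fun p hp => hMt p (hD.1 hp)) 2 hD.2)
    apply Real.rpow_le_rpow_of_exponent_le hx0
    push_cast
    linarith)
  set m := ∑ p ∈ M, 1 / (p : ℝ) with hm
  have hm0 : 0 ≤ m := sum_nonneg fun p _ => by positivity
  have hK0 : 0 ≤ K := hm0.trans hK
  have e2 := E_two M
  rw [← hm] at e2
  have hsq := sq_sum_le hx ε M (fun p hp => (mem_Lrg.1 (hM hp)).2)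
  rw [← hm] at hsq
  have hxe : 0 ≤ (x : ℝ) ^ (-ε) := by positivity
  have hsq' : ∑ p ∈ M, (1 / (p : ℝ)) ^ 2 ≤ (x : ℝ) ^ (-ε) * K :=
    hsq.trans (mul_le_mul_of_nonneg_left hK hxe)
  have hsq0 : 0 ≤ ∑ p ∈ M, (1 / (p : ℝ)) ^ 2 := sum_nonneg fun p _ => by positivity
  have hm2 : m ^ 2 ≤ K ^ 2 := pow_le_pow_left₀ hm0 hK 2
  have hE2 : E 2 M ≤ K ^ 2 := by nlinarith
  have hch : ∀ n, 2 / (T : ℝ) * (((hit M a n).card.choose 2 : ℕ) : ℝ) ≤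
      ((hit M a n).card : ℝ) ^ 2 := by
    intro n
    have h1 : (((hit M a n).card.choose 2 : ℕ) : ℝ) =
        ((hit M a n).card : ℝ) * (((hit M a n).card : ℝ) - 1) / 2 := Nat.cast_choose_two ℝ _
    have h3 : (0 : ℝ) ≤ ((hit M a n).card : ℝ) := by positivity
    have h4 : (((hit M a n).card.choose 2 : ℕ) : ℝ) ≤ ((hit M a n).card : ℝ) ^ 2 / 2 := by
      rw [h1]; nlinarith
    have h5 : 2 / (T : ℝ) ≤ 2 := by
      rw [div_le_iff₀ hT0]; linarith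
    calc 2 / (T : ℝ) * (((hit M a n).card.choose 2 : ℕ) : ℝ)
        ≤ 2 * (((hit M a n).card : ℝ) ^ 2 / 2) := by gcongr
      _ = _ := by ring
  have hpt : 2 / (T : ℝ) * ∑ n ∈ sv x a (Sml x ε P) ∅, (((hit M a n).card.choose 2 : ℕ) : ℝ) ≤
      ∑ n ∈ sv x a (Sml x ε P) ∅, (((hit M a n).card - 1 : ℕ) : ℝ) +
        ∑ n ∈ X, ((hit M a n).card : ℝ) ^ 2 := by
    have h5 : ∀ n ∈ sv x a (Sml x ε P) ∅, 2 / (T : ℝ) * (((hit M a n).card.choose 2 : ℕ) : ℝ) ≤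
        (((hit M a n).card - 1 : ℕ) : ℝ) + (if n ∈ X then ((hit M a n).card : ℝ) ^ 2 else 0) := by
      intro n hn
      have hn1 : n ∈ Icc 1 x := by
        rw [sv_empty] at hn
        exact (mem_filter.1 hn).1
      split_ifs with hnX
      · have h6 : (0 : ℝ) ≤ (((hit M a n).card - 1 : ℕ) : ℝ) := by positivity
        linarith [hch n]
      · rw [add_zero]
        exact ptw2 _ T hT (hX n hn1 hnX)
    rw [mul_sum]
    refine (sum_le_sum h5).trans ?_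
    rw [sum_add_distrib]
    apply add_le_add le_rfl
    rw [← sum_filter]
    apply sum_le_sum_of_subset_of_nonneg
    · intro n hn
      exact (mem_filter.1 hn).2
    · intro n _ _
      positivity
  have h2' := (abs_le.1 h2).1
  have hxV : 0 ≤ x * V x ε P := mul_nonneg hxp.le hV
  have key : x * V x ε P * (m ^ 2 / 2 - (x : ℝ) ^ (-ε) * K / 2 - η * K ^ 2) ≤
      ∑ n ∈ sv x a (Sml x ε P) ∅, (((hit M a n).card.choose 2 : ℕ) : ℝ) := by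
    have k1 : x * V x ε P * (m ^ 2 / 2 - (x : ℝ) ^ (-ε) * K / 2 - η * K ^ 2) ≤
        x * V x ε P * (E 2 M - η * E 2 M) := by
      apply mul_le_mul_of_nonneg_left _ hxV
      have : η * E 2 M ≤ η * K ^ 2 := by gcongr
      linarith
    have e : x * V x ε P * (E 2 M - η * E 2 M) =
        x * V x ε P * E 2 M - η * (x * V x ε P * E 2 M) := by ring
    linarith
  have key2 := mul_le_mul_of_nonneg_left key (show 0 ≤ 2 / (T : ℝ) by positivity)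
  linarith

end Pool.Agent.Lib.MP_ba437d_nt
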