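import Pool.Agent.Lib.MP_ba437d_nt.Core

/-!
MP_ba437d_nt: the sieve lemma.
-/

set_option autoImplicit false

namespace Pool.Agent.Lib.MP_ba437d_nt

open Finset

/-- the primes of `P` whose class contains `n` -/
def hit (P : Finset ℕ) (a : ℕ → ℤ) (n : ℕ) : Finset ℕ :=
  P.filter (fun p => (n : ℤ) ≡ a p [ZMOD (p : ℤ)])

theorem double (N : ℕ) (a : ℕ → ℤ) (D P : Finset ℕ) (j : ℕ) (φ : ℕ → Prop) [DecidablePred φ] :
    ∑ n ∈ (cl N a D).filter φ, (((hit P a n).card.choose j : ℕ) : ℝ) =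
      ∑ Q ∈ powersetCard j P, ((((cl N a (D ∪ Q)).filter φ).card : ℕ) : ℝ) := by
  classical
  have h1 : ∀ n, (((hit P a n).card.choose j : ℕ) : ℝ) =
      ∑ Q ∈ powersetCard j P, if (∀ p ∈ Q, (n : ℤ) ≡ a p [ZMOD (p : ℤ)]) then (1 : ℝ) else 0 := by
    intro n
    rw [← card_powersetCard, sum_ite, sum_const_zero, add_zero, sum_const, nsmul_eq_mul, mul_one]
    congr 2
    ext Q
    simp only [mem_powersetCard, mem_filter, hit]
    constructor
    · rintro ⟨h, h'⟩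
      exact ⟨⟨fun p hp => (mem_filter.1 (h hp)).1, h'⟩, fun p hp => (mem_filter.1 (h hp)).2⟩
    · rintro ⟨⟨h, h'⟩, h''⟩
      exact ⟨fun p hp => mem_filter.2 ⟨h hp, h'' p hp⟩, h'⟩
  rw [sum_congr rfl fun n _ => h1 n, sum_comm]
  apply sum_congr rfl
  intro Q _
  rw [sum_ite, sum_const_zero, add_zero, sum_const, nsmul_eq_mul, mul_one]
  congr 2
  ext n
  simp only [cl, mem_filter, mem_Icc, mem_union]
  constructor
  · rintro ⟨⟨⟨h1, h2⟩, h3⟩, h4⟩
    exact ⟨⟨h1, fun p hp => hp.elim (h2 p) (h4 p)⟩, h3⟩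
  · rintro ⟨⟨h1, h2⟩, h3⟩
    exact ⟨⟨⟨h1, fun p hp => h2 p (Or.inl hp)⟩, h3⟩, fun p hp => h2 p (Or.inr hp)⟩

theorem bonf (h r : ℕ) :
    |∑ j ∈ range (r + 1), (-1 : ℝ) ^ j * ((h.choose j : ℕ) : ℝ) - (if h = 0 then 1 else 0)| ≤
      ((h.choose (r + 1) : ℕ) : ℝ) := by
  rcases Nat.eq_zero_or_pos h with rfl | h0
  · rw [sum_range_succ']
    simp
  · obtain ⟨m, rfl⟩ : ∃ m, h = m + 1 := ⟨h - 1, by omega⟩
    have e := Int.alternating_sum_range_choose_eq_choose (n := m) (m := r)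
    have e' : ∑ j ∈ range (r + 1), (-1 : ℝ) ^ j * (((m + 1).choose j : ℕ) : ℝ) =
        (-1) ^ r * ((m.choose r : ℕ) : ℝ) := by exact_mod_cast e
    rw [e', if_neg (by omega), sub_zero, abs_mul, abs_pow, abs_neg, abs_one, one_pow, one_mul,
      abs_of_nonneg (by positivity)]
    rcases Nat.lt_or_ge m r with hr | hr
    · rw [Nat.choose_eq_zero_of_lt hr]
      simp
    · have h3 : ((m + 1 : ℕ) : ℝ) * ((m.choose r : ℕ) : ℝ) =
          (((m + 1).choose (r + 1) : ℕ) : ℝ) * ((r + 1 : ℕ) : ℝ) := by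
        exact_mod_cast Nat.add_one_mul_choose_eq m r
      have hc : (1 : ℝ) ≤ (((m + 1).choose (r + 1) : ℕ) : ℝ) := by
        exact_mod_cast Nat.choose_pos (by omega)
      have hmr : ((r + 1 : ℕ) : ℝ) ≤ ((m + 1 : ℕ) : ℝ) := by exact_mod_cast (by omega)
      have hm0 : (0 : ℝ) < ((m + 1 : ℕ) : ℝ) := by positivity
      by_contra hlt
      push Not at hlt
      have : (((m + 1).choose (r + 1) : ℕ) : ℝ) * ((r + 1 : ℕ) : ℝ) <
          ((m + 1 : ℕ) : ℝ) * ((m.choose r : ℕ) : ℝ) := by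
        calc (((m + 1).choose (r + 1) : ℕ) : ℝ) * ((r + 1 : ℕ) : ℝ)
            ≤ (((m + 1).choose (r + 1) : ℕ) : ℝ) * ((m + 1 : ℕ) : ℝ) := by gcongr
          _ < ((m.choose r : ℕ) : ℝ) * ((m + 1 : ℕ) : ℝ) := by gcongr
          _ = _ := by ring
      linarith

theorem W_union (D Q : Finset ℕ) (h : Disjoint D Q) : W (D ∪ Q) = W D * W Q := by
  unfold W
  rw [prod_union h]

/-- the integers of `[1, N]` in the classes of `D` and in no class of `P` -/
def sv (N : ℕ) (a : ℕ → ℤ) (P D : Finset ℕ) : Finset ℕ :=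
  (cl N a D).filter (fun n => ∀ p ∈ P, ¬ ((n : ℤ) ≡ a p [ZMOD (p : ℤ)]))

theorem card_pow_le (P : Finset ℕ) (Z : ℝ) (hZ : 1 ≤ Z) (hP : (P.card : ℝ) ≤ Z) (j r : ℕ)
    (hj : j ≤ r) : (((powersetCard j P).card : ℕ) : ℝ) ≤ Z ^ r := by
  rw [card_powersetCard]
  calc ((P.card.choose j : ℕ) : ℝ) ≤ ((P.card ^ j : ℕ) : ℝ) := by
        exact_mod_cast Nat.choose_le_pow _ _
    _ = (P.card : ℝ) ^ j := by push_cast; rfl
    _ ≤ Z ^ j := pow_le_pow_left₀ (by positivity) hP j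
    _ ≤ Z ^ r := pow_le_pow_right₀ hZ hj

theorem sieve (N : ℕ) (a : ℕ → ℤ) (P D : Finset ℕ) (hP : ∀ p ∈ P, p.Prime) (hD : ∀ p ∈ D, p.Prime)
    (hdis : Disjoint D P) {K : ℝ} (hK : ∑ p ∈ P, 1 / (p : ℝ) ≤ K) (r : ℕ) (Z : ℝ) (hZ : 1 ≤ Z)
    (hPZ : (P.card : ℝ) ≤ Z) :
    |((sv N a P D).card : ℝ) - N * W D * ∏ p ∈ P, (1 - 1 / (p : ℝ))| ≤
      2 * tau K r * (N * W D) + (r + 2) * Z ^ (r + 1) := by
  classical
  have hK0 : 0 ≤ K := le_trans (sum_nonneg fun p _ => by positivity) hK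
  -- count of a union
  have hcl : ∀ j, ∀ Q ∈ powersetCard j P,
      |((cl N a (D ∪ Q)).card : ℝ) - N * W D * W Q| ≤ 1 := by
    intro j Q hQ
    rw [mem_powersetCard] at hQ
    have h1 := cl_card N a (D ∪ Q) (fun p hp => (mem_union.1 hp).elim (hD p) fun h => hP p (hQ.1 h))
    rw [W_union D Q (disjoint_of_subset_right hQ.1 hdis), ← mul_assoc] at h1
    exact h1
  have hs : ∀ j, j ≤ r + 1 → |∑ Q ∈ powersetCard j P, ((cl N a (D ∪ Q)).card : ℝ) -
      N * W D * E j P| ≤ Z ^ (r + 1) := by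
    intro j hj
    unfold E
    rw [mul_sum, ← sum_sub_distrib]
    refine (abs_sum_le_sum_abs _ _).trans ((sum_le_sum (hcl j)).trans ?_)
    rw [sum_const, nsmul_eq_mul, mul_one]
    exact card_pow_le P Z hZ hPZ j (r + 1) hj
  have hdb : ∀ j, ∑ n ∈ cl N a D, (((hit P a n).card.choose j : ℕ) : ℝ) =
      ∑ Q ∈ powersetCard j P, ((cl N a (D ∪ Q)).card : ℝ) := by
    intro j
    have := double N a D P j (fun _ => True)
    simpa using this
  have h0 : ((sv N a P D).card : ℝ) =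
      ∑ n ∈ cl N a D, (if (hit P a n).card = 0 then (1 : ℝ) else 0) := by
    rw [sum_ite, sum_const_zero, add_zero, sum_const, nsmul_eq_mul, mul_one]
    congr 2
    ext n
    simp only [sv, mem_filter, card_eq_zero, hit, filter_eq_empty_iff]
  have h1 : |((sv N a P D).card : ℝ) - ∑ j ∈ range (r + 1), (-1 : ℝ) ^ j *
      ∑ Q ∈ powersetCard j P, ((cl N a (D ∪ Q)).card : ℝ)| ≤
      ∑ Q ∈ powersetCard (r + 1) P, ((cl N a (D ∪ Q)).card : ℝ) := by
    rw [h0, ← hdb (r + 1), abs_sub_comm]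
    have e : ∑ j ∈ range (r + 1), (-1 : ℝ) ^ j * ∑ Q ∈ powersetCard j P,
        ((cl N a (D ∪ Q)).card : ℝ) = ∑ n ∈ cl N a D, ∑ j ∈ range (r + 1), (-1 : ℝ) ^ j *
        (((hit P a n).card.choose j : ℕ) : ℝ) := by
      rw [sum_comm]
      apply sum_congr rfl
      intro j _
      rw [← hdb j, mul_sum]
    rw [e, ← sum_sub_distrib]
    refine (abs_sum_le_sum_abs _ _).trans (sum_le_sum fun n _ => ?_)
    exact bonf _ r
  have h2 : |∑ j ∈ range (r + 1), (-1 : ℝ) ^ j *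
      ∑ Q ∈ powersetCard j P, ((cl N a (D ∪ Q)).card : ℝ) -
      N * W D * ∑ j ∈ range (r + 1), (-1 : ℝ) ^ j * E j P| ≤ (r + 1) * Z ^ (r + 1) := by
    rw [mul_sum, ← sum_sub_distrib]
    refine (abs_sum_le_sum_abs _ _).trans ?_
    have : ∀ j ∈ range (r + 1), |(-1 : ℝ) ^ j *
      ∑ Q ∈ powersetCard j P, ((cl N a (D ∪ Q)).card : ℝ) -
      N * W D * ((-1 : ℝ) ^ j * E j P)| ≤ Z ^ (r + 1) := by
      intro j hj
      rw [mem_range] at hj
      have e : (-1 : ℝ) ^ j * ∑ Q ∈ powersetCard j P, ((cl N a (D ∪ Q)).card : ℝ) -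
        N * W D * ((-1 : ℝ) ^ j * E j P) = (-1 : ℝ) ^ j *
        (∑ Q ∈ powersetCard j P, ((cl N a (D ∪ Q)).card : ℝ) - N * W D * E j P) := by ring
      rw [e, abs_mul, abs_pow, abs_neg, abs_one, one_pow, one_mul]
      exact hs j (by omega)
    refine (sum_le_sum this).trans ?_
    rw [sum_const, card_range, nsmul_eq_mul]
    push_cast
    exact le_rfl
  have h3 := trunc P hK r
  have h4 : ∑ Q ∈ powersetCard (r + 1) P, ((cl N a (D ∪ Q)).card : ℝ) ≤
      tau K r * (N * W D) + Z ^ (r + 1) := by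
    have h5 := (abs_le.1 (hs (r + 1) le_rfl)).2
    have h6 : E (r + 1) P ≤ tau K r := by
      refine (E_le (r + 1) P).trans ?_
      have h7 := tau_bound hK0 r {r + 1} (by simp)
      rw [sum_singleton] at h7
      refine le_trans ?_ h7
      exact div_le_div_of_nonneg_right
        (pow_le_pow_left₀ (sum_nonneg fun p _ => by positivity) hK _) (by positivity)
    have h8 : N * W D * E (r + 1) P ≤ N * W D * tau K r :=
      mul_le_mul_of_nonneg_left h6 (mul_nonneg (by positivity) (W_nonneg D))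
    linarith [mul_comm (tau K r) (N * W D)]
  have h9 : |N * W D * ∑ j ∈ range (r + 1), (-1 : ℝ) ^ j * E j P -
      N * W D * ∏ p ∈ P, (1 - 1 / (p : ℝ))| ≤ tau K r * (N * W D) := by
    rw [← mul_sub, abs_mul, abs_of_nonneg (mul_nonneg (by positivity) (W_nonneg D)), mul_comm]
    exact mul_le_mul_of_nonneg_right h3 (mul_nonneg (by positivity) (W_nonneg D))
  rw [abs_le] at *
  constructor
  · linarith [h1.1, h2.1, h9.1]
  · linarith [h1.2, h2.2, h9.2]

/-- lower bound for the product -/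
theorem one_sub_ge (w : ℝ) (h0 : 0 ≤ w) (h1 : w ≤ 1 / 2) :
    Real.exp (-(Real.log 4 * w)) ≤ 1 - w := by
  have hc := (convexOn_exp.2 (Set.mem_univ (0 : ℝ)) (Set.mem_univ (-Real.log 2))
    (show 0 ≤ 1 - 2 * w by linarith) (show 0 ≤ 2 * w by linarith) (by ring))
  simp only [smul_eq_mul, mul_zero, zero_add, Real.exp_zero, mul_one] at hc
  rw [Real.exp_neg, Real.exp_log (by norm_num)] at hc
  have e : Real.log 4 = 2 * Real.log 2 := by
    rw [show (4 : ℝ) = 2 ^ 2 by norm_num, Real.log_pow]; norm_num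
  rw [e]
  refine le_trans (le_of_eq ?_) (hc.trans (le_of_eq ?_))
  · congr 1; ring
  · ring

theorem prod_ge (P : Finset ℕ) (hP : ∀ p ∈ P, p.Prime) {K : ℝ} (hK : ∑ p ∈ P, 1 / (p : ℝ) ≤ K) :
    Real.exp (-(Real.log 4 * K)) ≤ ∏ p ∈ P, (1 - 1 / (p : ℝ)) := by
  have h1 : Real.exp (-(Real.log 4 * ∑ p ∈ P, 1 / (p : ℝ))) ≤ ∏ p ∈ P, (1 - 1 / (p : ℝ)) := by
    rw [mul_sum, ← sum_neg_distrib, Real.exp_sum]
    apply prod_le_prod
    · intro p _; exact (Real.exp_pos _).le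
    · intro p hp
      have : (2 : ℝ) ≤ p := by exact_mod_cast (hP p hp).two_le
      apply one_sub_ge _ (by positivity)
      exact one_div_le_one_div_of_le (by norm_num) this
  refine le_trans ?_ h1
  apply Real.exp_le_exp.2
  have : 0 ≤ Real.log 4 := Real.log_nonneg (by norm_num)
  nlinarith

theorem prod_le_one' (P : Finset ℕ) (hP : ∀ p ∈ P, p.Prime) : ∏ p ∈ P, (1 - 1 / (p : ℝ)) ≤ 1 := by
  apply prod_le_one
  · intro p hp
    have : (1 : ℝ) ≤ p := by exact_mod_cast (hP p hp).one_le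
    have : 1 / (p : ℝ) ≤ 1 := by rw [div_le_one (by linarith)]; exact this
    linarith
  · intro p _
    have : 0 ≤ 1 / (p : ℝ) := by positivity
    linarith

end Pool.Agent.Lib.MP_ba437d_nt
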