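import Pool.Agent.Lib.MP_ba437d_nt.Sieve
import Pool.Agent.Lib.MP_973905_nt.PrimeSum

/-!
MP_ba437d_nt: asymptotic form of the sieve lemma and the first-order lower bound.
-/

set_option autoImplicit false

namespace Pool.Agent.Lib.MP_ba437d_nt

open Finset Filter Topology

/-- upper bound for the mass of the primes of `P` in `(x^s, x^t]` -/
theorem mass_le (s t : ℝ) (hs : 0 < s) (hst : s ≤ t) (δ : ℝ) (hδ : 0 < δ) :
    ∀ᶠ x : ℕ in atTop, ∀ P : Finset ℕ, (∀ p ∈ P, p.Prime) →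
      (∀ p ∈ P, (x : ℝ) ^ s < p ∧ (p : ℝ) ≤ (x : ℝ) ^ t) →
      ∑ p ∈ P, 1 / (p : ℝ) ≤ Real.log (t / s) + δ := by
  obtain ⟨C, hC0, hC⟩ := Pool.Agent.Lib.MP_973905_nt.sum_inv_range
  have hlog : Tendsto (fun x : ℕ => Real.log (x : ℝ)) atTop atTop :=
    Real.tendsto_log_atTop.comp tendsto_natCast_atTop_atTop
  filter_upwards [hlog.eventually_ge_atTop (C / (s * δ)), hlog.eventually_ge_atTop (1 / s),
    eventually_ge_atTop 2] with x hx1 hx2 hx3 P hP hP'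
  have hx0 : (1 : ℝ) < x := by exact_mod_cast hx3
  have hxp : (0 : ℝ) < x := by linarith
  have hl : 0 < Real.log x := Real.log_pos hx0
  have hls : Real.log ((x : ℝ) ^ s) = s * Real.log x := Real.log_rpow hxp s
  have hlt : Real.log ((x : ℝ) ^ t) = t * Real.log x := Real.log_rpow hxp t
  have h1 : 1 ≤ s * Real.log x := by
    rw [div_le_iff₀ hs] at hx2
    linarith [mul_comm (Real.log x) s]
  have h2 : (2 : ℝ) ≤ (x : ℝ) ^ s := by
    have : Real.exp 1 ≤ (x : ℝ) ^ s := by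
      rw [← Real.exp_log (Real.rpow_pos_of_pos hxp s), hls]
      exact Real.exp_le_exp.2 h1
    have := Real.exp_one_gt_d9
    linarith
  have h3 : (x : ℝ) ^ s ≤ (x : ℝ) ^ t := Real.rpow_le_rpow_of_exponent_le hx0.le hst
  have h4 := (abs_le.1 (hC _ _ h2 h3)).2
  rw [hls, hlt, mul_div_mul_right _ _ hl.ne'] at h4
  have h5 : C / (s * Real.log x) ≤ δ := by
    rw [div_le_iff₀ (by positivity)]
    rw [div_le_iff₀ (by positivity)] at hx1
    nlinarith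
  have h6 : ∑ p ∈ P, 1 / (p : ℝ) ≤
      ∑ p ∈ Pool.Agent.Lib.MP_973905_nt.PS ((x : ℝ) ^ s) ((x : ℝ) ^ t), (1 : ℝ) / p := by
    apply sum_le_sum_of_subset_of_nonneg
    · intro p hp
      unfold Pool.Agent.Lib.MP_973905_nt.PS
      rw [mem_filter, mem_Ioc]
      refine ⟨⟨?_, ?_⟩, hP p hp⟩
      · rw [Nat.floor_lt (by positivity)]
        exact (hP' p hp).1
      · exact Nat.le_floor (hP' p hp).2
    · intro p _ _
      positivity
  linarith

theorem count_le (δ : ℝ) (hδ : 0 < δ) :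
    ∀ᶠ x : ℕ in atTop, ∀ P : Finset ℕ, (∀ p ∈ P, p.Prime) → (∀ p ∈ P, p ≤ x) →
      (P.card : ℝ) ≤ δ * x := by
  have h1 := tendsto_natCast_atTop_atTop.eventually
    (Chebyshev.eventually_primeCounting_le (ε := 1) one_pos)
  have hlog : Tendsto (fun x : ℕ => Real.log (x : ℝ)) atTop atTop :=
    Real.tendsto_log_atTop.comp tendsto_natCast_atTop_atTop
  filter_upwards [h1, hlog.eventually_ge_atTop ((Real.log 4 + 1) / δ),
    eventually_ge_atTop 2] with x hx1 hx2 hx3 P hP hP'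
  have hx0 : (1 : ℝ) < x := by exact_mod_cast hx3
  have hl : 0 < Real.log x := Real.log_pos hx0
  have h2 : P.card ≤ Nat.primeCounting x := by
    rw [← Nat.primesLE_card_eq_primeCounting]
    apply card_le_card
    intro p hp
    rw [Nat.mem_primesLE]
    exact ⟨hP' p hp, hP p hp⟩
  rw [Nat.floor_natCast] at hx1
  refine le_trans (by exact_mod_cast h2) (hx1.trans ?_)
  rw [div_le_iff₀ hl]
  rw [div_le_iff₀ hδ] at hx2
  nlinarith

/-- small primes -/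
noncomputable def Sml (x : ℕ) (ε : ℝ) (P : Finset ℕ) : Finset ℕ := by
  classical exact P.filter (fun p => (p : ℝ) ≤ (x : ℝ) ^ ε)

/-- large primes -/
noncomputable def Lrg (x : ℕ) (ε : ℝ) (P : Finset ℕ) : Finset ℕ := by
  classical exact P.filter (fun p => (x : ℝ) ^ ε < (p : ℝ))

theorem mem_Sml {x : ℕ} {ε : ℝ} {P : Finset ℕ} {p : ℕ} :
    p ∈ Sml x ε P ↔ p ∈ P ∧ (p : ℝ) ≤ (x : ℝ) ^ ε := by
  classical exact mem_filter

theorem mem_Lrg {x : ℕ} {ε : ℝ} {P : Finset ℕ} {p : ℕ} :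
    p ∈ Lrg x ε P ↔ p ∈ P ∧ (x : ℝ) ^ ε < (p : ℝ) := by
  classical exact mem_filter

theorem sum_Sml_le {x : ℕ} {ε : ℝ} {P : Finset ℕ} {K : ℝ} (h : ∑ p ∈ P, 1 / (p : ℝ) ≤ K) :
    ∑ p ∈ Sml x ε P, 1 / (p : ℝ) ≤ K := by
  refine le_trans (sum_le_sum_of_subset_of_nonneg (fun p hp => (mem_Sml.1 hp).1) ?_) h
  intro p _ _; positivity

theorem sum_Lrg_le {x : ℕ} {ε : ℝ} {P : Finset ℕ} {K : ℝ} (h : ∑ p ∈ P, 1 / (p : ℝ) ≤ K) :
    ∑ p ∈ Lrg x ε P, 1 / (p : ℝ) ≤ K := by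
  refine le_trans (sum_le_sum_of_subset_of_nonneg (fun p hp => (mem_Lrg.1 hp).1) ?_) h
  intro p _ _; positivity

/-- the density of the integers in no class of a small prime -/
noncomputable def V (x : ℕ) (ε : ℝ) (P : Finset ℕ) : ℝ := ∏ p ∈ Sml x ε P, (1 - 1 / (p : ℝ))

theorem Sml_card {x : ℕ} (hx : 1 ≤ x) {ε : ℝ} {P : Finset ℕ} (hP : ∀ p ∈ P, p.Prime) :
    ((Sml x ε P).card : ℝ) ≤ (x : ℝ) ^ ε := by
  have h0 : (0 : ℝ) ≤ (x : ℝ) ^ ε := by positivity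
  have h1 : (Sml x ε P).card ≤ ⌊(x : ℝ) ^ ε⌋₊ := by
    rw [show ⌊(x : ℝ) ^ ε⌋₊ = (Icc 1 ⌊(x : ℝ) ^ ε⌋₊).card by simp]
    apply card_le_card
    intro p hp
    rw [mem_Sml] at hp
    rw [mem_Icc]
    exact ⟨(hP p hp.1).one_le, Nat.le_floor hp.2⟩
  exact le_trans (by exact_mod_cast h1) (Nat.floor_le h0)

/-- asymptotic form of the sieve lemma -/
theorem fund (K : ℝ) (hK0 : 0 ≤ K) (β τ ε₀ : ℝ) (hβ : 0 < β) (hτ : 0 < τ) (hε₀ : 0 < ε₀) :
    ∃ ε : ℝ, 0 < ε ∧ ε ≤ ε₀ ∧ ∀ᶠ x : ℕ in atTop, ∀ (P : Finset ℕ) (a : ℕ → ℤ),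
      (∀ p ∈ P, p.Prime) → ∑ p ∈ P, 1 / (p : ℝ) ≤ K → ∀ D : Finset ℕ, (∀ p ∈ D, p.Prime) →
      Disjoint D (Sml x ε P) → (x : ℝ) ^ (-(1 - β)) ≤ W D →
      |((sv x a (Sml x ε P) D).card : ℝ) - x * W D * V x ε P| ≤ τ * (x * W D * V x ε P) := by
  set v := Real.exp (-(Real.log 4 * K)) with hv
  have hv0 : 0 < v := Real.exp_pos _
  obtain ⟨r, hr⟩ : ∃ r, tau K r < τ * v / 4 :=
    ((tau_tendsto K).eventually (gt_mem_nhds (by positivity))).exists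
  refine ⟨min ε₀ (β / (2 * (r + 1))), lt_min hε₀ (by positivity), min_le_left _ _, ?_⟩
  set ε := min ε₀ (β / (2 * (r + 1))) with hε
  have hε0 : 0 < ε := lt_min hε₀ (by positivity)
  have hεr : ε * (r + 1) ≤ β / 2 := by
    have : ε ≤ β / (2 * (r + 1)) := min_le_right _ _
    calc ε * (r + 1) ≤ β / (2 * (r + 1)) * (r + 1) := by gcongr
      _ = β / 2 := by field_simp
  have ht : Tendsto (fun x : ℕ => (x : ℝ) ^ (β / 2)) atTop atTop :=
    (tendsto_rpow_atTop (by positivity)).comp tendsto_natCast_atTop_atTop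
  filter_upwards [ht.eventually_ge_atTop ((r + 2) / (τ * v / 2)), eventually_ge_atTop 1]
    with x hx1 hx2 P a hP hK D hD hdis hW
  have hx0 : (1 : ℝ) ≤ x := by exact_mod_cast hx2
  have hxp : (0 : ℝ) < x := by linarith
  have hZ : 1 ≤ (x : ℝ) ^ ε := Real.one_le_rpow hx0 hε0.le
  have h1 := sieve x a (Sml x ε P) D (fun p hp => hP p (mem_Sml.1 hp).1) hD hdis (sum_Sml_le hK) r
    ((x : ℝ) ^ ε) hZ (Sml_card hx2 hP)
  have hV : v ≤ V x ε P := prod_ge _ (fun p hp => hP p (mem_Sml.1 hp).1) (sum_Sml_le hK)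
  refine h1.trans ?_
  have hxW : (x : ℝ) ^ β ≤ x * W D := by
    calc (x : ℝ) ^ β = x * (x : ℝ) ^ (-(1 - β)) := by
          nth_rewrite 2 [← Real.rpow_one (x : ℝ)]
          rw [← Real.rpow_add hxp]
          congr 1; ring
      _ ≤ _ := by gcongr
  have hW0 : 0 ≤ x * W D := le_trans (by positivity) hxW
  have h2 : ((x : ℝ) ^ ε) ^ (r + 1) ≤ (x : ℝ) ^ (β / 2) := by
    rw [← Real.rpow_natCast, ← Real.rpow_mul hxp.le]
    apply Real.rpow_le_rpow_of_exponent_le hx0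
    push_cast
    exact hεr
  have h3 : ((r : ℝ) + 2) * ((x : ℝ) ^ ε) ^ (r + 1) ≤ τ * v / 2 * (x * W D) := by
    have h4 : (r : ℝ) + 2 ≤ τ * v / 2 * (x : ℝ) ^ (β / 2) := by
      rw [div_le_iff₀ (by positivity)] at hx1
      linarith [mul_comm ((x : ℝ) ^ (β / 2)) (τ * v / 2)]
    calc ((r : ℝ) + 2) * ((x : ℝ) ^ ε) ^ (r + 1)
        ≤ (τ * v / 2 * (x : ℝ) ^ (β / 2)) * (x : ℝ) ^ (β / 2) := by gcongr
      _ = τ * v / 2 * (x : ℝ) ^ β := by
        rw [mul_assoc, ← Real.rpow_add hxp]; congr 2; ring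
      _ ≤ _ := by gcongr
  have h5 : 2 * tau K r * (x * W D) ≤ τ * v / 2 * (x * W D) :=
    mul_le_mul_of_nonneg_right (by linarith) hW0
  have h6 : τ * v * (x * W D) ≤ τ * (x * W D * V x ε P) := by
    calc τ * v * (x * W D) = τ * (x * W D) * v := by ring
      _ ≤ τ * (x * W D) * V x ε P := by gcongr
      _ = _ := by ring
  linarith

end Pool.Agent.Lib.MP_ba437d_nt
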